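import Mathlib

set_option autoImplicit false

/-! Finitely supported almost invariant averages for commutative groups and affine groups. -/

namespace Pool.Agent.H671S

open Finset

/-- The average of a real function over a finite type. -/
noncomputable def avg {ι : Type*} [Fintype ι] (F : ι → ℝ) : ℝ :=
  (∑ i, F i) / (Fintype.card ι : ℝ)

theorem avg_mono {ι : Type*} [Fintype ι] {F G : ι → ℝ} (h : ∀ i, F i ≤ G i) : avg F ≤ avg G := by
  unfold avg
  gcongr
  exact h _

theorem avg_const {ι : Type*} [Fintype ι] [Nonempty ι] (c : ℝ) : avg (fun _ : ι => c) = c := by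
  unfold avg
  have : (Fintype.card ι : ℝ) ≠ 0 := by positivity
  simp [this]

theorem avg_sub {ι : Type*} [Fintype ι] (F G : ι → ℝ) :
    avg (fun i => F i - G i) = avg F - avg G := by
  unfold avg
  rw [Finset.sum_sub_distrib, sub_div]

theorem avg_add {ι : Type*} [Fintype ι] (F G : ι → ℝ) :
    avg (fun i => F i + G i) = avg F + avg G := by
  unfold avg
  rw [Finset.sum_add_distrib, add_div]

theorem avg_sum {ι κ : Type*} [Fintype ι] (s : Finset κ) (F : κ → ι → ℝ) :
    avg (fun i => ∑ k ∈ s, F k i) = ∑ k ∈ s, avg (F k) := by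
  unfold avg
  rw [Finset.sum_comm, Finset.sum_div]

theorem abs_avg_le {ι : Type*} [Fintype ι] [Nonempty ι] {F : ι → ℝ} {c : ℝ} (h : ∀ i, |F i| ≤ c) :
    |avg F| ≤ c := by
  rw [abs_le]
  constructor
  · rw [← avg_const (ι := ι) (-c)]
    exact avg_mono fun i => (abs_le.1 (h i)).1
  · rw [← avg_const (ι := ι) c]
    exact avg_mono fun i => (abs_le.1 (h i)).2

theorem avg_prod {ι κ : Type*} [Fintype ι] [Fintype κ] (F : ι × κ → ℝ) :
    avg F = avg (fun i => avg (fun k => F (i, k))) := by
  unfold avg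
  rw [Fintype.sum_prod_type, Fintype.card_prod, ← Finset.sum_div]
  push_cast
  rw [div_div, mul_comm]

theorem avg_prod' {ι κ : Type*} [Fintype ι] [Fintype κ] (F : ι × κ → ℝ) :
    avg F = avg (fun k => avg (fun i => F (i, k))) := by
  unfold avg
  rw [Fintype.sum_prod_type_right, Fintype.card_prod, ← Finset.sum_div]
  push_cast
  rw [div_div]

/-- Almost invariant averages for commutative groups. -/
theorem exists_almost_invariant {A : Type*} [AddCommGroup A] (S : Finset A) (ε : ℝ) (hε : 0 < ε) :
    ∃ (ι : Type) (_ : Fintype ι) (_ : Nonempty ι) (x : ι → A),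
      ∀ f : A → ℝ, (∀ y, |f y| ≤ 1) → ∀ a ∈ S,
        |avg (fun i => f (x i + a)) - avg (fun i => f (x i))| ≤ ε := by
  classical
  induction S using Finset.induction_on with
  | empty => exact ⟨Unit, inferInstance, inferInstance, fun _ => 0, by simp⟩
  | insert a S ha ih =>
    obtain ⟨ι, _, _, x, hx⟩ := ih
    obtain ⟨m, hm⟩ := exists_nat_gt (2 / ε)
    have hm0 : 0 < m := by
      have : (0 : ℝ) < m := lt_trans (by positivity) hm
      exact_mod_cast this
    haveI : Nonempty (Fin m) := ⟨⟨0, hm0⟩⟩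
    refine ⟨ι × Fin m, inferInstance, inferInstance, fun p => x p.1 + (p.2 : ℕ) • a, ?_⟩
    intro f hf b hb
    rw [Finset.mem_insert] at hb
    rcases hb with rfl | hb
    · rw [avg_prod, avg_prod, ← avg_sub]
      apply abs_avg_le
      intro i
      rw [← avg_sub]
      unfold avg
      have h1 : ∑ k : Fin m, (f (x (i, k).1 + ((i, k).2 : ℕ) • b + b)
          - f (x (i, k).1 + ((i, k).2 : ℕ) • b)) = f (x i + m • b) - f (x i) := by
        have := Finset.sum_range_sub (fun k : ℕ => f (x i + k • b)) m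
        simp only [zero_smul, add_zero] at this
        rw [← this, ← Fin.sum_univ_eq_sum_range (fun k => f (x i + (k + 1) • b) - f (x i + k • b)) m]
        refine Finset.sum_congr rfl fun k _ => ?_
        rw [add_smul, one_smul, add_assoc]
      rw [h1, Fintype.card_fin, abs_div, Nat.abs_cast]
      have h2 : |f (x i + m • b) - f (x i)| ≤ 2 := by
        have := abs_sub (f (x i + m • b)) (f (x i))
        have h3 := hf (x i + m • b)
        have h4 := hf (x i)
        rw [abs_le] at *
        constructor <;> linarith [h3.1, h3.2, h4.1, h4.2]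
      have hm' : (0 : ℝ) < m := by exact_mod_cast hm0
      rw [div_le_iff₀ hm']
      have : 2 < ε * m := by
        rw [div_lt_iff₀ hε] at hm
        linarith
      linarith
    · rw [avg_prod', avg_prod', ← avg_sub]
      apply abs_avg_le
      intro k
      have := hx (fun y => f (y + (k : ℕ) • a)) (fun y => hf _) b hb
      simp only at this ⊢
      have e : ∀ i, x i + (k : ℕ) • a + b = x i + b + (k : ℕ) • a := fun i => by abel
      simp only [e]
      exact this

/-- Almost invariant averages on a field for finitely many affine maps. -/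
theorem exists_affine_almost_invariant {K : Type*} [Field K] (S : Finset (K × K))
    (hS : ∀ p ∈ S, p.1 ≠ 0) (ε : ℝ) (hε : 0 < ε) :
    ∃ (ι : Type) (_ : Fintype ι) (_ : Nonempty ι) (x : ι → K),
      ∀ f : K → ℝ, (∀ y, |f y| ≤ 1) → ∀ p ∈ S,
        |avg (fun i => f (p.1 * x i + p.2)) - avg (fun i => f (x i))| ≤ ε := by
  classical
  let u : K → Kˣ := fun c => if h : c ≠ 0 then Units.mk0 c h else 1
  have hu : ∀ c : K, c ≠ 0 → (u c : K) = c := fun c hc => by simp [u, hc]
  obtain ⟨ι₁, _, _, t, ht⟩ := exists_almost_invariant (A := Additive Kˣ)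
    (S.image fun p => Additive.ofMul (u p.1)) (ε / 2) (by positivity)
  obtain ⟨ι₂, _, _, y, hy⟩ := exists_almost_invariant (A := K)
    ((Finset.univ ×ˢ S).image fun q : ι₁ × (K × K) =>
      q.2.2 / (q.2.1 * ((t q.1).toMul : Kˣ))) (ε / 2) (by positivity)
  refine ⟨ι₁ × ι₂, inferInstance, inferInstance, fun q => ((t q.1).toMul : Kˣ) * y q.2, ?_⟩
  intro f hf p hp
  have hp1 := hS p hp
  -- first step: remove the translation
  have h1 : |avg (fun q : ι₁ × ι₂ => f (p.1 * (((t q.1).toMul : Kˣ) * y q.2) + p.2))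
      - avg (fun q : ι₁ × ι₂ => f (p.1 * (((t q.1).toMul : Kˣ) * y q.2)))| ≤ ε / 2 := by
    rw [avg_prod, avg_prod, ← avg_sub]
    apply abs_avg_le
    intro i
    have := hy (fun z => f (p.1 * (((t i).toMul : Kˣ) * z))) (fun z => hf _)
      (p.2 / (p.1 * ((t i).toMul : Kˣ)))
      (Finset.mem_image.2 ⟨(i, p), by simp [hp], rfl⟩)
    simp only at this ⊢
    have e : ∀ k, p.1 * (((t i).toMul : Kˣ) * (y k + p.2 / (p.1 * ((t i).toMul : Kˣ))))
        = p.1 * (((t i).toMul : Kˣ) * y k) + p.2 := by
      intro k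
      have h0 : (((t i).toMul : Kˣ) : K) ≠ 0 := Units.ne_zero _
      field_simp
    simp only [e] at this
    exact this
  have h2 : |avg (fun q : ι₁ × ι₂ => f (p.1 * (((t q.1).toMul : Kˣ) * y q.2)))
      - avg (fun q : ι₁ × ι₂ => f ((((t q.1).toMul : Kˣ) * y q.2)))| ≤ ε / 2 := by
    rw [avg_prod', avg_prod', ← avg_sub]
    apply abs_avg_le
    intro k
    have := ht (fun z => f (((z.toMul : Kˣ) : K) * y k)) (fun z => hf _)
      (Additive.ofMul (u p.1)) (Finset.mem_image.2 ⟨p, hp, rfl⟩)
    simp only at this ⊢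
    have e : ∀ i, (((t i + Additive.ofMul (u p.1)).toMul : Kˣ) : K) * y k
        = p.1 * (((t i).toMul : Kˣ) * y k) := by
      intro i
      rw [toMul_add, toMul_ofMul, Units.val_mul, hu _ hp1]
      ring
    simp only [e] at this
    exact this
  have := abs_sub_le (avg (fun q : ι₁ × ι₂ => f (p.1 * (((t q.1).toMul : Kˣ) * y q.2) + p.2)))
    (avg (fun q : ι₁ × ι₂ => f (p.1 * (((t q.1).toMul : Kˣ) * y q.2))))
    (avg (fun q : ι₁ × ι₂ => f ((((t q.1).toMul : Kˣ) * y q.2))))
  linarith

end Pool.Agent.H671S
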