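import Mathlib
import Pool.Agent.H671S.Avg

set_option autoImplicit false

/-! A packing lemma for families of sets of finite VC dimension and counting averages. -/

namespace Pool.Agent.H671S

open Finset

/-- No `k`-element set of points is shattered by the family. -/
def NoShatter {X : Type*} (F : Set (Set X)) (k : ℕ) : Prop :=
  ∀ A : Finset X, A.card = k → ∃ B ⊆ A, ∀ s ∈ F, ¬ ∀ a ∈ A, (a ∈ B ↔ a ∈ s)

theorem card_lt_of_noShatter {m k : ℕ} {X : Type*} {F : Set (Set X)} (hF : NoShatter F k)
    (x : Fin m → X) {N : ℕ} (G : Fin N → Set X) (hG : ∀ j, G j ∈ F)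
    (hsep : ∀ i j, i ≠ j → ∃ l, ¬ (x l ∈ G i ↔ x l ∈ G j)) : N ≤ (m + 1) ^ k := by
  classical
  -- the traces as finsets of `Fin m`
  let T : Fin N → Finset (Fin m) := fun j => Finset.univ.filter fun l => x l ∈ G j
  have hTinj : Function.Injective T := by
    intro i j hij
    by_contra hne
    obtain ⟨l, hl⟩ := hsep i j hne
    apply hl
    have : l ∈ T i ↔ l ∈ T j := by rw [hij]
    simpa [T] using this
  let 𝒜 : Finset (Finset (Fin m)) := Finset.univ.image T
  have hcard : 𝒜.card = N := by
    rw [Finset.card_image_of_injective _ hTinj, Finset.card_univ, Fintype.card_fin]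
  have hsh : ∀ s ∈ 𝒜.shatterer, s.card < k := by
    intro s hs
    rw [Finset.mem_shatterer] at hs
    by_contra hk
    push Not at hk
    obtain ⟨s', hs', hcs'⟩ := Finset.exists_subset_card_eq hk
    have hs'' : 𝒜.Shatters s' := hs.mono_right hs'
    -- injectivity of x on s'
    have hinj : Set.InjOn x (s' : Set (Fin m)) := by
      intro a ha b hb hab
      by_contra hne
      obtain ⟨u, hu, hsu⟩ := hs'' (t := {a}) (by simpa using ha)
      obtain ⟨j, -, rfl⟩ := Finset.mem_image.1 hu
      have h1 : a ∈ s' ∩ T j := by rw [hsu]; simp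
      have h2 : b ∉ s' ∩ T j := by rw [hsu]; simpa using fun h => hne h.symm
      apply h2
      rw [Finset.mem_inter] at h1 ⊢
      refine ⟨hb, ?_⟩
      have : x a ∈ G j := by simpa [T] using h1.2
      simpa [T, ← hab] using this
    have hcA : (s'.image x).card = k := by
      rw [Finset.card_image_of_injOn hinj, hcs']
    obtain ⟨B, hB, hno⟩ := hF (s'.image x) hcA
    obtain ⟨u, hu, hsu⟩ := hs'' (t := s'.filter fun l => x l ∈ B) (Finset.filter_subset _ _)
    obtain ⟨j, -, rfl⟩ := Finset.mem_image.1 hu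
    apply hno (G j) (hG j)
    intro a ha
    obtain ⟨l, hl, rfl⟩ := Finset.mem_image.1 ha
    have h3 : l ∈ s' ∩ T j ↔ l ∈ s'.filter fun l => x l ∈ B := by rw [hsu]
    simp only [Finset.mem_inter, Finset.mem_filter, hl, true_and, T, Finset.mem_univ] at h3
    exact h3.symm
  have h1 : N ≤ 𝒜.shatterer.card := hcard ▸ Finset.card_le_card_shatterer 𝒜
  refine h1.trans ?_
  -- injection from small sets to functions
  have h2 : 𝒜.shatterer ⊆ (Finset.univ : Finset (Fin k → Option (Fin m))).image
      (fun g => Finset.univ.filter fun l => ∃ i, g i = some l) := by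
    intro s hs
    have hk := hsh s hs
    rw [Finset.mem_image]
    let e := s.equivFin
    refine ⟨fun i => if h : (i : ℕ) < s.card then some (e.symm ⟨i, h⟩).1 else none,
      Finset.mem_univ _, ?_⟩
    ext l
    simp only [Finset.mem_filter, Finset.mem_univ, true_and]
    constructor
    · rintro ⟨i, hi⟩
      split_ifs at hi with h
      · simp only [Option.some.injEq] at hi
        rw [← hi]
        exact (e.symm ⟨i, h⟩).2
    · intro hl
      refine ⟨⟨(e ⟨l, hl⟩ : ℕ), (e ⟨l, hl⟩).2.trans hk⟩, ?_⟩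
      have : ((e ⟨l, hl⟩ : Fin s.card) : ℕ) < s.card := (e ⟨l, hl⟩).2
      simp [this]
  calc 𝒜.shatterer.card ≤ _ := Finset.card_le_card h2
    _ ≤ (Finset.univ : Finset (Fin k → Option (Fin m))).card := Finset.card_image_le
    _ = (m + 1) ^ k := by
      rw [Finset.card_univ, Fintype.card_fun, Fintype.card_option, Fintype.card_fin,
        Fintype.card_fin]

/-- The indicator of the symmetric difference. -/
noncomputable def dif {X : Type*} (s t : Set X) (x : X) : ℝ := by
  classical exact if (x ∈ s ↔ x ∈ t) then 0 else 1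

theorem dif_nonneg {X : Type*} (s t : Set X) (x : X) : 0 ≤ dif s t x := by
  unfold dif; split_ifs <;> norm_num

theorem dif_le_one {X : Type*} (s t : Set X) (x : X) : dif s t x ≤ 1 := by
  unfold dif; split_ifs <;> norm_num

theorem dif_triangle {X : Type*} (s t u : Set X) (x : X) : dif s u x ≤ dif s t x + dif t u x := by
  unfold dif
  by_cases h1 : x ∈ s <;> by_cases h2 : x ∈ t <;> by_cases h3 : x ∈ u <;> simp [h1, h2, h3]

theorem dif_comm {X : Type*} (s t : Set X) (x : X) : dif s t x = dif t s x := by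
  unfold dif
  by_cases h1 : x ∈ s <;> by_cases h2 : x ∈ t <;> simp [h1, h2]

theorem exists_parameters (k : ℕ) (η : ℝ) (hη : 0 < η) (hη1 : η ≤ 1) :
    ∃ m : ℕ, (((m + 1 : ℕ) ^ k + 1 : ℕ) : ℝ) ^ 2 * (1 - η) ^ m < 1 := by
  have h0 : |1 - η| < 1 := by
    rw [abs_lt]; constructor <;> linarith
  have h1 := tendsto_pow_const_mul_const_pow_of_abs_lt_one (2 * k) h0
  have h2 := h1.const_mul (4 * 4 ^ k)
  rw [mul_zero] at h2
  have h3 := (h2.eventually (gt_mem_nhds (show (0 : ℝ) < 1 by norm_num))).and
    (Filter.eventually_ge_atTop 1)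
  obtain ⟨m, hm, hm1⟩ := h3.exists
  refine ⟨m, lt_of_le_of_lt ?_ hm⟩
  have hr : 0 ≤ (1 - η) ^ m := pow_nonneg (by linarith) _
  rw [← mul_assoc]
  apply mul_le_mul_of_nonneg_right _ hr
  have hmR : (1 : ℝ) ≤ m := by exact_mod_cast hm1
  push_cast
  have h5 : ((m : ℝ) + 1) ^ k ≤ (2 * m) ^ k := by
    apply pow_le_pow_left₀ (by positivity)
    linarith
  have h6 : (1 : ℝ) ≤ (2 * m) ^ k := one_le_pow₀ (by linarith)
  have h7 : ((m : ℝ) + 1) ^ k + 1 ≤ 2 * (2 * m) ^ k := by linarith
  calc (((m : ℝ) + 1) ^ k + 1) ^ 2 ≤ (2 * (2 * m) ^ k) ^ 2 := by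
        apply pow_le_pow_left₀ (by positivity) h7
    _ = 4 * 4 ^ k * (m : ℝ) ^ (2 * k) := by
        rw [mul_pow, ← pow_mul, mul_pow, pow_mul' 2 k 2]
        norm_num
        ring

/-- Packing lemma: a family of finite VC dimension has no large separated subfamilies,
uniformly over all finite counting averages. -/
theorem packing {X : Type*} {F : Set (Set X)} {k : ℕ} (hF : NoShatter F k) (η : ℝ) (hη : 0 < η) :
    ∃ N : ℕ, 0 < N ∧ ∀ (ι : Type) (_ : Fintype ι) (_ : Nonempty ι) (x : ι → X)
      (G : Fin N → Set X), (∀ j, G j ∈ F) →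
      ∃ i j, i ≠ j ∧ avg (fun l => dif (G i) (G j) (x l)) < η := by
  classical
  rcases lt_or_ge 1 η with h1 | hη1
  · refine ⟨2, by norm_num, fun ι _ _ x G hG => ⟨0, 1, by decide, lt_of_le_of_lt ?_ h1⟩⟩
    rw [← avg_const (ι := ι) (1 : ℝ)]
    exact avg_mono fun i => dif_le_one _ _ _
  obtain ⟨m, hm⟩ := exists_parameters k η hη hη1
  refine ⟨(m + 1) ^ k + 1, Nat.succ_pos _, fun ι _ _ x G hG => ?_⟩
  by_contra hcon
  push Not at hcon
  -- find a separating tuple
  have hex : ∃ s : Fin m → ι, ∀ i j, i ≠ j → ∃ l, ¬ (x (s l) ∈ G i ↔ x (s l) ∈ G j) := by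
    by_contra hno
    push Not at hno
    -- every tuple fails for some pair
    have hcov : (Finset.univ : Finset (Fin m → ι)) ⊆
        (Finset.univ.filter fun p : Fin ((m + 1) ^ k + 1) × Fin ((m + 1) ^ k + 1) =>
          p.1 ≠ p.2).biUnion
        (fun p => Fintype.piFinset fun _ : Fin m =>
          Finset.univ.filter fun l : ι => (x l ∈ G p.1 ↔ x l ∈ G p.2)) := by
      intro s _
      obtain ⟨i, j, hij, h⟩ := hno s
      rw [Finset.mem_biUnion]
      refine ⟨(i, j), by simpa using hij, ?_⟩
      rw [Fintype.mem_piFinset]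
      intro l
      simpa using h l
    have hc := (Finset.card_le_card hcov).trans Finset.card_biUnion_le
    have hι : (0 : ℝ) < Fintype.card ι := by
      exact_mod_cast Fintype.card_pos
    have hbound : ∀ p ∈ (Finset.univ.filter fun p : Fin ((m + 1) ^ k + 1) × Fin ((m + 1) ^ k + 1) =>
          p.1 ≠ p.2), (((Fintype.piFinset fun _ : Fin m =>
          Finset.univ.filter fun l : ι => (x l ∈ G p.1 ↔ x l ∈ G p.2)).card : ℕ) : ℝ)
          ≤ ((1 - η) * Fintype.card ι) ^ m := by
      intro p hp
      rw [Fintype.card_piFinset]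
      rw [Finset.prod_const, Finset.card_univ, Fintype.card_fin]
      push_cast
      apply pow_le_pow_left₀ (by positivity)
      have h2 := hcon p.1 p.2 (by simpa using hp)
      unfold avg at h2
      rw [le_div_iff₀ hι] at h2
      have h3 : ∑ l, dif (G p.1) (G p.2) (x l) =
          (Fintype.card ι : ℝ) - ((Finset.univ.filter fun l : ι =>
            (x l ∈ G p.1 ↔ x l ∈ G p.2)).card : ℝ) := by
        have h4 : ∀ l, dif (G p.1) (G p.2) (x l) =
            1 - (if (x l ∈ G p.1 ↔ x l ∈ G p.2) then (1 : ℝ) else 0) := by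
          intro l
          unfold dif
          split_ifs <;> norm_num
        rw [Finset.sum_congr rfl fun l _ => h4 l, Finset.sum_sub_distrib, Finset.sum_boole]
        simp
      rw [h3] at h2
      linarith
    have hc' : ((Fintype.card ι : ℝ)) ^ m ≤
        ((((m + 1) ^ k + 1 : ℕ) : ℝ)) ^ 2 * ((1 - η) * Fintype.card ι) ^ m := by
      have e1 : ((Finset.univ : Finset (Fin m → ι)).card : ℝ) = (Fintype.card ι : ℝ) ^ m := by
        rw [Finset.card_univ, Fintype.card_fun, Fintype.card_fin]
        push_cast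
        rfl
      rw [← e1]
      have hcR : ((Finset.univ : Finset (Fin m → ι)).card : ℝ) ≤
          ∑ p ∈ (Finset.univ.filter fun p : Fin ((m + 1) ^ k + 1) × Fin ((m + 1) ^ k + 1) =>
            p.1 ≠ p.2), (((Fintype.piFinset fun _ : Fin m =>
            Finset.univ.filter fun l : ι => (x l ∈ G p.1 ↔ x l ∈ G p.2)).card : ℕ) : ℝ) := by
        exact_mod_cast hc
      refine hcR.trans ((Finset.sum_le_sum hbound).trans ?_)
      rw [Finset.sum_const, nsmul_eq_mul]
      apply mul_le_mul_of_nonneg_right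
      · have : (Finset.univ.filter fun p : Fin ((m + 1) ^ k + 1) × Fin ((m + 1) ^ k + 1) =>
            p.1 ≠ p.2).card ≤ ((m + 1) ^ k + 1) ^ 2 := by
          refine (Finset.card_filter_le _ _).trans ?_
          rw [Finset.card_univ, Fintype.card_prod, Fintype.card_fin, sq]
        exact_mod_cast this
      · apply pow_nonneg
        apply mul_nonneg <;> linarith
    rw [mul_pow, ← mul_assoc] at hc'
    have hpos : (0 : ℝ) < (Fintype.card ι : ℝ) ^ m := by positivity
    have : (Fintype.card ι : ℝ) ^ m < (Fintype.card ι : ℝ) ^ m := by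
      calc (Fintype.card ι : ℝ) ^ m ≤ _ := hc'
        _ < 1 * (Fintype.card ι : ℝ) ^ m := by
          apply mul_lt_mul_of_pos_right hm hpos
        _ = _ := one_mul _
    exact lt_irrefl _ this
  obtain ⟨s, hs⟩ := hex
  have := card_lt_of_noShatter hF (fun l => x (s l)) G hG hs
  omega

end Pool.Agent.H671S
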