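import Mathlib
import Pool.Agent.H671S.Packing

set_option autoImplicit false

/-! Finite VC dimension and affine invariance give generic translation invariance. -/

namespace Pool.Agent.H671S

open Finset

theorem exists_maximal_separated {X : Type*} {F : Set (Set X)} {η : ℝ} {N : ℕ}
    {ι : Type} [Fintype ι] (x : ι → X)
    (hN : ∀ G : Fin N → Set X, (∀ j, G j ∈ F) →
      ∃ i j, i ≠ j ∧ avg (fun l => dif (G i) (G j) (x l)) < η) :
    ∃ n < N, ∃ G : Fin n → Set X, (∀ j, G j ∈ F) ∧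
      ∀ s ∈ F, ∃ i, avg (fun l => dif s (G i) (x l)) < η := by
  classical
  -- least n with no separated family
  have hex : ∃ n, ∀ G : Fin n → Set X, (∀ j, G j ∈ F) →
      ∃ i j, i ≠ j ∧ avg (fun l => dif (G i) (G j) (x l)) < η := ⟨N, hN⟩
  have h0 : Nat.find hex ≠ 0 := by
    intro h
    have := Nat.find_spec hex
    rw [h] at this
    obtain ⟨i, -⟩ := this (fun i => i.elim0) (fun i => i.elim0)
    exact i.elim0
  obtain ⟨n, hn⟩ := Nat.exists_eq_succ_of_ne_zero h0
  have hle : Nat.find hex ≤ N := Nat.find_min' hex hN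
  have hspec := Nat.find_spec hex
  have hmin := Nat.find_min hex (m := n) (by omega)
  rw [hn] at hspec
  push Not at hmin
  obtain ⟨G, hG, hsep⟩ := hmin
  refine ⟨n, by omega, G, hG, fun s hs => ?_⟩
  by_contra hcon
  push Not at hcon
  obtain ⟨i, j, hij, hlt⟩ := hspec (Fin.cons s G) (by
    intro j
    refine Fin.cases ?_ (fun j => ?_) j
    · simpa using hs
    · simpa using hG j)
  revert hij hlt
  refine Fin.cases ?_ (fun i => ?_) i <;> refine Fin.cases ?_ (fun j => ?_) j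
  · intro h; exact absurd rfl h
  · intro _ hlt
    simp only [Fin.cons_zero, Fin.cons_succ] at hlt
    exact absurd hlt (not_lt.2 (hcon j))
  · intro _ hlt
    simp only [Fin.cons_zero, Fin.cons_succ] at hlt
    have := hcon i
    simp only [dif_comm (G i) s] at hlt
    exact absurd hlt (not_lt.2 this)
  · intro hij hlt
    simp only [Fin.cons_succ] at hlt
    exact absurd hlt (not_lt.2 (hsep i j (fun h => hij (by rw [h]))))

theorem avg_dif_triangle {X : Type*} {ι : Type} [Fintype ι] (x : ι → X) (s t u : Set X) :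
    avg (fun l => dif s u (x l)) ≤ avg (fun l => dif s t (x l)) + avg (fun l => dif t u (x l)) := by
  rw [← avg_add]
  exact avg_mono fun l => dif_triangle _ _ _ _

theorem aux_calc (m : ℝ) (hm : 0 < m) :
    (m - 1) * (7 * (1 / (8 * m))) = (7 / 8) * ((m - 1) / m) := by
  field_simp

/-- Generic translation invariance. -/
theorem exists_invariant_point {K : Type*} [Field K] [Infinite K] {F : Set (Set K)} {k : ℕ}
    (hF : NoShatter F k)
    (hinv : ∀ s ∈ F, ∀ c d : K, c ≠ 0 → {x | c * x + d ∈ s} ∈ F)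
    (Z : Finset K) (𝓑 : Finset (Set K)) (h𝓑 : ∀ s ∈ 𝓑, s ∈ F) :
    ∃ x : K, ∀ z ∈ Z, ∀ s ∈ 𝓑, (x ∈ s ↔ x + z ∈ s) := by
  classical
  rcases 𝓑.eq_empty_or_nonempty with rfl | ⟨s₀, hs₀⟩
  · exact ⟨0, by simp⟩
  set M : ℝ := (Z.card : ℝ) * (𝓑.card : ℝ) + 1 with hM
  have hMpos : 0 < M := by positivity
  set η : ℝ := 1 / (8 * M) with hη
  have hηpos : 0 < η := by positivity
  obtain ⟨N, hN0, hN⟩ := packing hF η hηpos
  obtain ⟨Z₀, hZ₀⟩ := Infinite.exists_subset_card_eq K (N ^ N + 1)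
  -- the finite set of affine maps
  let S : Finset (K × K) := ((Z ×ˢ (Z₀ ×ˢ Z₀)).image
    (fun q : K × (K × K) => (q.1 / (q.2.1 - q.2.2), q.1 / (q.2.1 - q.2.2) * q.2.2))).filter
    (fun p => p.1 ≠ 0) ∪ Z₀.image (fun z => (1, z))
  obtain ⟨ι, _, _, x, hx⟩ := exists_affine_almost_invariant S
    (fun p hp => by
      rcases Finset.mem_union.1 hp with hp | hp
      · exact (Finset.mem_filter.1 hp).2
      · obtain ⟨z, -, rfl⟩ := Finset.mem_image.1 hp
        exact one_ne_zero) η hηpos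
  obtain ⟨n, hnN, G, hG, hGmax⟩ := exists_maximal_separated x (hN ι _ ‹_› x)
  have : Nonempty (Fin n) := ⟨(hGmax s₀ (h𝓑 s₀ hs₀)).choose⟩
  -- choose approximations
  choose! a ha using hGmax
  have htr : ∀ s ∈ F, ∀ z : K, {y | y + z ∈ s} ∈ F := by
    intro s hs z
    have := hinv s hs 1 z one_ne_zero
    simpa using this
  have hdif : ∀ (s t : Set K) (y : K), |dif s t y| ≤ 1 := fun s t y => by
    rw [abs_of_nonneg (dif_nonneg s t y)]; exact dif_le_one s t y
  -- pigeonhole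
  obtain ⟨z₁, hz₁, z₂, hz₂, hne, heq⟩ := Finset.exists_ne_map_eq_of_card_lt_of_maps_to
    (s := Z₀) (t := (Finset.univ : Finset (Fin n → Fin n)))
    (f := fun z i => a {y | y + z ∈ G i})
    (by
      rw [Finset.card_univ, Fintype.card_fun, Fintype.card_fin, hZ₀]
      calc n ^ n ≤ N ^ n := Nat.pow_le_pow_left hnN.le n
        _ ≤ N ^ N := Nat.pow_le_pow_right hN0 hnN.le
        _ < N ^ N + 1 := Nat.lt_succ_self _)
    (fun z _ => Finset.mem_coe.2 (Finset.mem_univ _))
  have hshift : ∀ s ∈ F, ∀ z ∈ Z₀, avg (fun l => dif s (G (a s)) (x l + z)) < 2 * η := by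
    intro s hs z hz
    have h1 := hx (dif s (G (a s))) (fun y => hdif _ _ y) (1, z)
      (Finset.mem_union_right _ (Finset.mem_image.2 ⟨z, hz, rfl⟩))
    simp only [one_mul] at h1
    have h2 := ha s hs
    have h3 := (abs_le.1 h1).2
    linarith
  have hkey : ∀ s ∈ F, avg (fun l => dif {y | y + z₁ ∈ s} {y | y + z₂ ∈ s} (x l)) ≤ 6 * η := by
    intro s hs
    have h1 : avg (fun l => dif {y | y + z₁ ∈ s} {y | y + z₁ ∈ G (a s)} (x l)) < 2 * η :=
      hshift s hs z₁ hz₁
    have h2 : avg (fun l => dif {y | y + z₂ ∈ G (a s)} {y | y + z₂ ∈ s} (x l)) < 2 * η := by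
      have : avg (fun l => dif {y | y + z₂ ∈ G (a s)} {y | y + z₂ ∈ s} (x l)) =
          avg (fun l => dif s (G (a s)) (x l + z₂)) := by
        congr 1
        funext l
        rw [dif_comm]
        rfl
      rw [this]
      exact hshift s hs z₂ hz₂
    have h3 := ha {y | y + z₁ ∈ G (a s)} (htr _ (hG _) _)
    have h4 := ha {y | y + z₂ ∈ G (a s)} (htr _ (hG _) _)
    have h5 : a {y | y + z₁ ∈ G (a s)} = a {y | y + z₂ ∈ G (a s)} := congrFun heq (a s)
    rw [h5] at h3
    set b := a {y | y + z₂ ∈ G (a s)}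
    have h6 : avg (fun l => dif (G b) {y | y + z₂ ∈ G (a s)} (x l)) < η := by
      have e : (fun l => dif (G b) {y | y + z₂ ∈ G (a s)} (x l)) =
          fun l => dif {y | y + z₂ ∈ G (a s)} (G b) (x l) := by
        funext l
        rw [dif_comm]
      rw [e]
      exact h4
    have t1 := avg_dif_triangle x {y | y + z₁ ∈ s} {y | y + z₁ ∈ G (a s)} {y | y + z₂ ∈ s}
    have t2 := avg_dif_triangle x {y | y + z₁ ∈ G (a s)} (G b) {y | y + z₂ ∈ s}
    have t3 := avg_dif_triangle x (G b) {y | y + z₂ ∈ G (a s)} {y | y + z₂ ∈ s}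
    linarith
  have hfin : ∀ s ∈ F, ∀ z ∈ Z, avg (fun l => dif s {y | y + z ∈ s} (x l)) ≤ 7 * η := by
    intro s hs z hz
    rcases eq_or_ne z 0 with rfl | hz0
    · have : (fun l => dif s {y | y + 0 ∈ s} (x l)) = fun _ => (0 : ℝ) := by
        funext l
        simp [dif]
      rw [this, avg_const]
      positivity
    have he : z₁ - z₂ ≠ 0 := sub_ne_zero.2 hne
    set c : K := z / (z₁ - z₂) with hc
    have hc0 : c ≠ 0 := div_ne_zero hz0 he
    have h1 := hx (dif s {y | y + z ∈ s}) (fun y => hdif _ _ y) (c, c * z₂)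
      (Finset.mem_union_left _ (Finset.mem_filter.2 ⟨Finset.mem_image.2
        ⟨(z, (z₁, z₂)), by simp [hz, hz₁, hz₂], rfl⟩, hc0⟩))
    have h2 : (fun i => dif s {y | y + z ∈ s} (c * x i + c * z₂)) =
        fun i => dif {y | y + z₁ ∈ {x | c * x + 0 ∈ s}} {y | y + z₂ ∈ {x | c * x + 0 ∈ s}} (x i) := by
      funext i
      rw [dif_comm]
      unfold dif
      have e1 : c * x i + c * z₂ + z = c * (x i + z₁) + 0 := by
        rw [hc]; field_simp; ring
      have e2 : c * x i + c * z₂ = c * (x i + z₂) + 0 := by ring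
      have e1' : c * x i + c * z₂ + z ∈ s ↔ c * (x i + z₁) + 0 ∈ s := by rw [e1]
      have e2' : c * x i + c * z₂ ∈ s ↔ c * (x i + z₂) + 0 ∈ s := by rw [e2]
      simp only [Set.mem_ofPred_eq, e1', e2']
    have h3 := hkey _ (hinv s hs c 0 hc0)
    simp only [h2] at h1
    have h4 := (abs_le.1 h1).1
    linarith
  -- union bound
  by_contra hcon
  push Not at hcon
  have hbig : (1 : ℝ) ≤ avg (fun l => ∑ p ∈ Z ×ˢ 𝓑, dif p.2 {y | y + p.1 ∈ p.2} (x l)) := by
    rw [← avg_const (ι := ι) (1 : ℝ)]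
    apply avg_mono
    intro l
    obtain ⟨z, hz, s, hs, h⟩ := hcon (x l)
    calc (1 : ℝ) = dif s {y | y + z ∈ s} (x l) := by
          unfold dif
          rw [if_neg]
          intro h'
          rcases h with ⟨h1, h2⟩ | ⟨h1, h2⟩
          · exact h2 (h'.1 h1)
          · exact h1 (h'.2 h2)
      _ ≤ _ := Finset.single_le_sum (f := fun p : K × Set K => dif p.2 {y | y + p.1 ∈ p.2} (x l))
          (fun p _ => dif_nonneg _ _ _) (Finset.mem_product.2 ⟨hz, hs⟩ : (z, s) ∈ Z ×ˢ 𝓑)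
  rw [avg_sum] at hbig
  have hle : ∑ p ∈ Z ×ˢ 𝓑, avg (fun l => dif p.2 {y | y + p.1 ∈ p.2} (x l)) ≤
      ((Z ×ˢ 𝓑).card : ℝ) * (7 * η) := by
    rw [← nsmul_eq_mul]
    apply Finset.sum_le_card_nsmul
    intro p hp
    exact hfin p.2 (h𝓑 _ (Finset.mem_product.1 hp).2) p.1 (Finset.mem_product.1 hp).1
  rw [Finset.card_product] at hle
  push_cast at hle
  have h8 : (Z.card : ℝ) * 𝓑.card * (7 * η) < 1 := by
    have h9 : (Z.card : ℝ) * 𝓑.card = M - 1 := by rw [hM]; ring
    rw [h9, hη]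
    have : (M - 1) * (7 * (1 / (8 * M))) = (7 / 8) * ((M - 1) / M) := aux_calc M hMpos
    rw [this]
    have h10 : (M - 1) / M < 1 := by
      rw [div_lt_one hMpos]; linarith
    have h11 : 0 ≤ (M - 1) / M := by
      apply div_nonneg _ hMpos.le
      rw [← h9]
      exact mul_nonneg (Nat.cast_nonneg _) (Nat.cast_nonneg _)
    linarith
  linarith

end Pool.Agent.H671S
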