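import Mathlib
import Pool.Agent.H671S.Inv

set_option autoImplicit false

/-! The combinatorial core: a field with a linear order of type omega has the independence
property. -/

namespace Pool.Agent.H671S

open Finset Filter

/-- The affine comparison family. -/
def cmpFam {K W : Type*} [Field K] [LinearOrder W] (h : K → W) : Set (Set K) :=
  {s | ∃ a y y' : K, a ≠ 0 ∧ s = {x | h (a * x + y) < h (a * x + y')}}

theorem cmpFam_inv {K W : Type*} [Field K] [LinearOrder W] (h : K → W) :
    ∀ s ∈ cmpFam h, ∀ c d : K, c ≠ 0 → {x | c * x + d ∈ s} ∈ cmpFam h := by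
  rintro s ⟨a, y, y', ha, rfl⟩ c d hc
  refine ⟨a * c, a * d + y, a * d + y', mul_ne_zero ha hc, ?_⟩
  ext x
  simp only [Set.mem_ofPred_eq]
  have e1 : a * (c * x + d) + y = a * c * x + (a * d + y) := by ring
  have e2 : a * (c * x + d) + y' = a * c * x + (a * d + y') := by ring
  rw [e1, e2]

theorem exists_ultrafilter {K W : Type*} [Field K] [Infinite K] [LinearOrder W] (h : K → W)
    {k : ℕ} (hF : NoShatter (cmpFam h) k) :
    ∃ p : Ultrafilter K, ∀ y y' z : K,
      ∀ᶠ x in (p : Filter K), (h (x + y) < h (x + y') ↔ h (x + (y + z)) < h (x + (y' + z))) := by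
  classical
  obtain ⟨p, hp⟩ := Ultrafilter.exists_ultrafilter_of_finite_inter_nonempty
    {s : Set K | ∃ y y' z : K,
      s = {x | h (x + y) < h (x + y') ↔ h (x + (y + z)) < h (x + (y' + z))}} (by
    intro T hT
    have hT' : ∀ s : Set K, s ∈ T → ∃ y y' z : K,
        s = {x | h (x + y) < h (x + y') ↔ h (x + (y + z)) < h (x + (y' + z))} :=
      fun s hs => hT hs
    choose! y y' z hs using hT'
    obtain ⟨x, hx⟩ := exists_invariant_point hF (cmpFam_inv h) (T.image z)
      (T.image fun s => {x | h (1 * x + y s) < h (1 * x + y' s)}) (by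
        intro s hs
        obtain ⟨t, -, rfl⟩ := Finset.mem_image.1 hs
        exact ⟨1, _, _, one_ne_zero, rfl⟩)
    refine ⟨x, ?_⟩
    rw [Set.mem_sInter]
    intro s hsT
    have h1 := hx (z s) (Finset.mem_image_of_mem _ hsT) _ (Finset.mem_image_of_mem _ hsT)
    rw [hs s hsT]
    simp only [Set.mem_ofPred_eq, one_mul] at h1 ⊢
    rw [h1]
    have e1 : x + z s + y s = x + (y s + z s) := by ring
    have e2 : x + z s + y' s = x + (y' s + z s) := by ring
    rw [e1, e2])
  exact ⟨p, fun y y' z => hp ⟨y, y', z, rfl⟩⟩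

/-- The generic order along an ultrafilter. -/
@[instance_reducible]
noncomputable def genOrder {K W : Type*} [Field K] [LinearOrder W] (h : K → W)
    (hinj : Function.Injective h) (p : Ultrafilter K) : LinearOrder K := by
  classical
  exact
  { le := fun a b => ∀ᶠ x in (p : Filter K), h (x + a) ≤ h (x + b)
    le_refl := fun a => Eventually.of_forall fun x => le_refl _
    le_trans := fun a b c hab hbc => by
      filter_upwards [hab, hbc] with x h1 h2 using h1.trans h2
    le_antisymm := fun a b hab hba => by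
      obtain ⟨x, h1, h2⟩ := (hab.and hba).exists
      exact add_left_cancel (hinj (le_antisymm h1 h2))
    le_total := fun a b => by
      rw [← Ultrafilter.eventually_or]
      exact Eventually.of_forall fun x => le_total _ _
    toDecidableLE := Classical.decRel _ }

/-- The formula used for coding subsets. -/
def Phi {K W : Type*} [Field K] [LinearOrder W] (h : K → W) (x t t' u : K) : Prop :=
  ∃ a, h a < h t' ∧ ¬ (h (x + u) < h (x + a)) ∧
    ∀ b, h b < h t → ¬ (h (x + u) < h (x + b)) → h (x + b) < h (x + a)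

/-- The order part: in an ordered abelian group with arbitrarily small elements. -/
theorem order_part {K : Type*} [AddCommGroup K] [LinearOrder K] [IsOrderedAddMonoid K]
    (hsmall : ∀ g : K, 0 < g → ∃ e : K, 0 < e ∧ e + e < g) (hpos : ∃ g : K, 0 < g)
    (A : K → Set K) (hA : ∀ t, (A t).Finite) (hcof : ∀ Q : Set K, Q.Finite → ∃ t, Q ⊆ A t)
    (n : ℕ) : ∃ (t : ℕ → K) (u : Finset (Fin n) → K), (∀ S, u S ∈ A (t n)) ∧
      (∀ i j, i ≤ j → A (t i) ⊆ A (t j)) ∧
      ∀ (i : Fin n) (S : Finset (Fin n)),
        ((∃ a ∈ A (t (i + 1)), a ≤ u S ∧ ∀ b ∈ A (t i), b ≤ u S → b < a) ↔ i ∈ S) := by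
  classical
  -- the small element below the gaps of a finite set
  have heps : ∀ t : K, ∃ e : K, 0 < e ∧ ∀ a ∈ A t, ∀ b ∈ A t, a < b → e + e < b - a := by
    intro t
    -- minimum of the finite set of gaps
    have hfin : (((A t) ×ˢ (A t)) ∩ {q : K × K | q.1 < q.2}).Finite :=
      ((hA t).prod (hA t)).subset Set.inter_subset_left
    have hfin2 : ((fun q : K × K => q.2 - q.1) ''
        (((A t) ×ˢ (A t)) ∩ {q : K × K | q.1 < q.2})).Finite := hfin.image _
    rcases ((fun q : K × K => q.2 - q.1) ''
        (((A t) ×ˢ (A t)) ∩ {q : K × K | q.1 < q.2})).eq_empty_or_nonempty with he | hne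
    · obtain ⟨g, hg⟩ := hpos
      refine ⟨g, hg, fun a ha b hb hab => ?_⟩
      exfalso
      have : (b - a) ∈ ((fun q : K × K => q.2 - q.1) ''
        (((A t) ×ˢ (A t)) ∩ {q : K × K | q.1 < q.2})) := ⟨(a, b), ⟨⟨ha, hb⟩, hab⟩, rfl⟩
      rw [he] at this
      exact this
    · obtain ⟨g, hg, hmin⟩ := Set.exists_min_image _ id hfin2 hne
      obtain ⟨q, ⟨-, hq⟩, rfl⟩ := hg
      have hq' : 0 < q.2 - q.1 := sub_pos.2 hq
      obtain ⟨e, he0, he⟩ := hsmall _ hq'
      refine ⟨e, he0, fun a ha b hb hab => lt_of_lt_of_le he ?_⟩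
      exact hmin (b - a) ⟨(a, b), ⟨⟨ha, hb⟩, hab⟩, rfl⟩
  choose eps heps0 heps using heps
  have hnext : ∀ t : K, ∃ t' : K, A t ∪ ((fun a => a + eps t) '' A t) ∪ {0, eps t} ⊆ A t' := by
    intro t
    apply hcof
    exact ((hA t).union ((hA t).image _)).union (Set.toFinite _)
  choose next hnext using hnext
  obtain ⟨t₀, ht₀⟩ := hcof {0} (Set.finite_singleton _)
  let t : ℕ → K := fun i => next^[i] t₀
  have ht : ∀ i, t (i + 1) = next (t i) := fun i => Function.iterate_succ_apply' _ _ _
  have hsub : ∀ i, A (t i) ⊆ A (t (i + 1)) := by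
    intro i a ha
    rw [ht]
    exact hnext _ (Or.inl (Or.inl ha))
  have hsh : ∀ i, ∀ a ∈ A (t i), a + eps (t i) ∈ A (t (i + 1)) := by
    intro i a ha
    rw [ht]
    exact hnext _ (Or.inl (Or.inr ⟨a, ha, rfl⟩))
  have h0 : ∀ i, (0 : K) ∈ A (t i) := by
    intro i
    cases i with
    | zero => exact ht₀ rfl
    | succ i => rw [ht]; exact hnext _ (Or.inr (Or.inl rfl))
  have he1 : ∀ i, eps (t i) ∈ A (t (i + 1)) := by
    intro i
    rw [ht]; exact hnext _ (Or.inr (Or.inr rfl))
  have hmono : ∀ i j, i ≤ j → A (t i) ⊆ A (t j) := by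
    intro i j hij
    induction hij with
    | refl => exact subset_rfl
    | step _ ih => exact ih.trans (hsub _)
  -- epsilons decrease fast
  have hdec : ∀ i, eps (t (i + 1)) + eps (t (i + 1)) < eps (t i) := by
    intro i
    have := heps (t (i + 1)) 0 (h0 _) (eps (t i)) (he1 i) (heps0 _)
    simpa using this
  -- general sequences of bits
  let E : ℕ → (ℕ → Prop) → K := fun i P => by
    classical exact if P i then eps (t i) else 0
  have hE0 : ∀ i P, 0 ≤ E i P := by
    intro i P
    simp only [E]
    split_ifs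
    · exact (heps0 _).le
    · exact le_rfl
  have hE1 : ∀ i P, E i P ≤ eps (t i) := by
    intro i P
    simp only [E]
    split_ifs
    · exact le_rfl
    · exact (heps0 _).le
  -- head and tail sums
  let head : ℕ → (ℕ → Prop) → K := fun i P => ∑ l ∈ Finset.range i, E l P
  have hhead : ∀ i P, head i P ∈ A (t i) := by
    intro i P
    induction i with
    | zero => simpa [head] using h0 0
    | succ i ih =>
      have : head (i + 1) P = head i P + E i P := Finset.sum_range_succ _ _
      rw [this]
      simp only [E]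
      split_ifs
      · exact hsh i _ ih
      · rw [add_zero]; exact hsub i ih
  have hdiff0 : ∀ i d P, head i P ≤ head (i + d) P := by
    intro i d P
    induction d with
    | zero => exact le_rfl
    | succ d ih =>
      have : head (i + (d + 1)) P = head (i + d) P + E (i + d) P := by
        rw [← add_assoc]; exact Finset.sum_range_succ _ _
      rw [this]
      exact ih.trans (le_add_of_nonneg_right (hE0 _ _))
  have hdiff : ∀ d i P, head (i + d) P - head i P < eps (t i) + eps (t i) := by
    intro d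
    induction d with
    | zero => intro i P; simpa using add_pos (heps0 (t i)) (heps0 (t i))
    | succ d ih =>
      intro i P
      have h1 := ih (i + 1) P
      have h2 : head (i + 1) P = head i P + E i P := Finset.sum_range_succ _ _
      have h3 : i + 1 + d = i + (d + 1) := by ring
      rw [h3] at h1
      have h4 : head (i + (d + 1)) P - head i P =
          (head (i + (d + 1)) P - head (i + 1) P) + E i P := by rw [h2]; abel
      rw [h4]
      have h5 := hdec i
      have h6 := hE1 i P
      calc _ < (eps (t (i + 1)) + eps (t (i + 1))) + E i P := by gcongr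
        _ < eps (t i) + E i P := by gcongr
        _ ≤ eps (t i) + eps (t i) := by gcongr
  -- comparison with elements of A (t i)
  have hcmp : ∀ i d P, ∀ a ∈ A (t i), a ≤ head (i + d) P → a ≤ head i P := by
    intro i d P a ha hle
    by_contra hlt
    push Not at hlt
    have h1 := heps (t i) _ (hhead i P) a ha hlt
    have h2 := hdiff d i P
    have h3 : a - head i P ≤ head (i + d) P - head i P := by gcongr
    exact absurd (h1.trans_le h3) (not_lt.2 h2.le)
  refine ⟨t, fun S => head n (fun i => ∃ h : i < n, (⟨i, h⟩ : Fin n) ∈ S), fun S => hhead _ _,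
    hmono, ?_⟩
  intro i S
  set P : ℕ → Prop := fun i => ∃ h : i < n, (⟨i, h⟩ : Fin n) ∈ S with hP
  have hi1 : (i : ℕ) + (n - i) = n := by have := i.2; omega
  have hi2 : (i : ℕ) + 1 + (n - (i + 1)) = n := by have := i.2; omega
  have hc0 : ∀ a ∈ A (t i), a ≤ head n P → a ≤ head i P := by
    have := hcmp i (n - i) P
    rwa [hi1] at this
  have hc1 : ∀ a ∈ A (t (i + 1)), a ≤ head n P → a ≤ head (i + 1) P := by
    have := hcmp (i + 1) (n - (i + 1)) P
    rwa [hi2] at this
  have hle0 : head i P ≤ head n P := by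
    have := hdiff0 i (n - i) P
    rwa [hi1] at this
  have hle1 : head (i + 1) P ≤ head n P := by
    have := hdiff0 (i + 1) (n - (i + 1)) P
    rwa [hi2] at this
  have hsucc : head (i + 1) P = head i P + E i P := Finset.sum_range_succ _ _
  have hPi : P i ↔ i ∈ S := by
    simp [hP]
  constructor
  · rintro ⟨a, ha, hau, hb⟩
    by_contra hiS
    have hE : E i P = 0 := by
      simp only [E]
      rw [if_neg (by rw [hPi]; exact hiS)]
    rw [hE, add_zero] at hsucc
    have h1 := hc1 a ha hau
    rw [hsucc] at h1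
    exact absurd (hb _ (hhead i P) hle0) (not_lt.2 h1)
  · intro hiS
    have hE : E i P = eps (t i) := by
      simp only [E]
      rw [if_pos (by rw [hPi]; exact hiS)]
    refine ⟨head (i + 1) P, hhead _ _, hle1, fun b hb hbu => ?_⟩
    rw [hsucc, hE]
    exact lt_of_le_of_lt (hc0 b hb hbu) (lt_add_of_pos_right _ (heps0 _))

/-- The combinatorial core. -/
theorem core {K W : Type*} [Field K] [Infinite K] [LinearOrder W] (h : K → W)
    (hinj : Function.Injective h) (hfin : ∀ t : K, {y | h y ≤ h t}.Finite)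
    {k : ℕ} (hF : NoShatter (cmpFam h) k) (n : ℕ) :
    ∃ (x : K) (t : ℕ → K) (u : Finset (Fin n) → K),
      ∀ (i : Fin n) (S : Finset (Fin n)), (Phi h x (t i) (t (i + 1)) (u S) ↔ i ∈ S) := by
  classical
  obtain ⟨p, hp⟩ := exists_ultrafilter h hF
  let _ : LinearOrder K := genOrder h hinj p
  have hle : ∀ a b : K, a ≤ b ↔ ∀ᶠ x in (p : Filter K), h (x + a) ≤ h (x + b) :=
    fun a b => Iff.rfl
  have hlt : ∀ a b : K, a < b ↔ ∀ᶠ x in (p : Filter K), h (x + a) < h (x + b) := by
    intro a b
    rw [← not_le, hle, ← Ultrafilter.eventually_not]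
    simp only [not_le]
  have htr : ∀ a b c : K, a < b ↔ a + c < b + c := by
    intro a b c
    rw [hlt, hlt]
    have := hp a b c
    constructor
    · intro h1
      filter_upwards [h1, this] with x h2 h3 using h3.1 h2
    · intro h1
      filter_upwards [h1, this] with x h2 h3 using h3.2 h2
  have hord : IsOrderedAddMonoid K :=
    { add_le_add_left := fun a b hab c => by
        rw [← not_lt] at hab ⊢
        rwa [← htr] }
  -- characteristic: no torsion
  have htwo : (2 : K) ≠ 0 := by
    intro h2
    rcases lt_trichotomy (0 : K) 1 with h1 | h1 | h1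
    · have : (0 : K) < 1 + 1 := add_pos h1 h1
      rw [one_add_one_eq_two, h2] at this
      exact lt_irrefl _ this
    · exact one_ne_zero h1.symm
    · have : (1 : K) + 1 < 0 := add_neg h1 h1
      rw [one_add_one_eq_two, h2] at this
      exact lt_irrefl _ this
  have hhalf : ∀ g : K, 0 < g → 0 < g / 2 := by
    intro g hg
    by_contra hneg
    push Not at hneg
    have : g / 2 + g / 2 ≤ 0 := add_nonpos hneg hneg
    rw [← two_mul, mul_div_cancel₀ g htwo] at this
    exact absurd hg (not_lt.2 this)
  have hsmall : ∀ g : K, 0 < g → ∃ e : K, 0 < e ∧ e + e < g := by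
    intro g hg
    refine ⟨g / 2 / 2, hhalf _ (hhalf _ hg), ?_⟩
    have e1 : g / 2 / 2 + g / 2 / 2 = g / 2 := by
      rw [← two_mul, mul_div_cancel₀ _ htwo]
    have e2 : g = g / 2 + g / 2 := by
      rw [← two_mul, mul_div_cancel₀ _ htwo]
    rw [e1]
    conv_rhs => rw [e2]
    exact lt_add_of_pos_right _ (hhalf _ hg)
  have hpos : ∃ g : K, 0 < g := by
    rcases lt_trichotomy (0 : K) 1 with h1 | h1 | h1
    · exact ⟨1, h1⟩
    · exact absurd h1.symm one_ne_zero
    · exact ⟨-1, neg_pos.2 h1⟩
  -- initial segments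
  have hcof : ∀ Q : Set K, Q.Finite → ∃ t, Q ⊆ {y | h y < h t} := by
    intro Q hQ
    by_contra hcon
    push Not at hcon
    -- every t is bounded by an element of Q
    have : (Set.univ : Set K) ⊆ ⋃ q ∈ Q, {y | h y ≤ h q} := by
      intro t _
      obtain ⟨q, hq, hqt⟩ := Set.not_subset.1 (hcon t)
      simp only [Set.mem_iUnion]
      exact ⟨q, hq, not_lt.1 hqt⟩
    exact Set.infinite_univ ((hQ.biUnion fun q _ => hfin q).subset this)
  obtain ⟨t, u, hu, hmono, hiff⟩ := order_part hsmall hpos (fun t => {y | h y < h t})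
    (fun t => (hfin t).subset fun y hy => le_of_lt hy) hcof n
  -- a good point
  have hgood : ∃ x : K, ∀ a ∈ {y | h y < h (t n)}, ∀ b ∈ {y | h y < h (t n)},
      (a < b ↔ h (x + a) < h (x + b)) := by
    have hfinA : {y | h y < h (t n)}.Finite := (hfin (t n)).subset fun y hy => le_of_lt hy
    have : ∀ᶠ x in (p : Filter K), ∀ a ∈ {y | h y < h (t n)}, ∀ b ∈ {y | h y < h (t n)},
        (a < b ↔ h (x + a) < h (x + b)) := by
      rw [Set.Finite.eventually_all hfinA]
      intro a ha
      rw [Set.Finite.eventually_all hfinA]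
      intro b hb
      by_cases hab : a < b
      · filter_upwards [(hlt a b).1 hab] with x hx
        exact ⟨fun _ => hx, fun _ => hab⟩
      · have := (hle b a).1 (not_lt.1 hab)
        filter_upwards [this] with x hx
        exact ⟨fun h' => absurd h' hab, fun h' => absurd h' (not_lt.2 hx)⟩
    exact this.exists
  obtain ⟨x, hx⟩ := hgood
  refine ⟨x, t, u, fun i S => ?_⟩
  rw [← hiff i S]
  have hi : (i : ℕ) + 1 ≤ n := i.2
  have hi' : (i : ℕ) ≤ n := i.2.le
  unfold Phi
  constructor
  · rintro ⟨a, ha, hau, hb⟩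
    have haA := hmono _ _ hi ha
    refine ⟨a, ha, ?_, fun b hb1 hb2 => ?_⟩
    · rw [← not_lt, hx _ (hu S) _ haA]
      exact hau
    · have hbA := hmono _ _ hi' hb1
      rw [hx _ hbA _ haA]
      apply hb b hb1
      rw [← hx _ (hu S) _ hbA]
      exact not_lt.2 hb2
  · rintro ⟨a, ha, hau, hb⟩
    have haA := hmono _ _ hi ha
    refine ⟨a, ha, ?_, fun b hb1 hb2 => ?_⟩
    · rw [← hx _ (hu S) _ haA]
      exact not_lt.2 hau
    · have hbA := hmono _ _ hi' hb1
      rw [← hx _ hbA _ haA]
      apply hb b hb1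
      rw [← not_lt, hx _ (hu S) _ hbA]
      exact hb2

end Pool.Agent.H671S
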