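import Mathlib
import Pool.Agent.H671S.Core

set_option autoImplicit false

/-! Definability calculus for relations on an interpreted field. -/

namespace Pool.Agent.H671S

open FirstOrder FirstOrder.Language Set

variable {L : FirstOrder.Language.{0, 0}} [L.Structure ℕ] {n : ℕ}

/-- Definability of a relation between finitely many tuples. -/
def Dfn (L : FirstOrder.Language.{0, 0}) [L.Structure ℕ] {n : ℕ} {α : Type}
    (P : (α → Fin n → ℕ) → Prop) : Prop :=
  (∅ : Set ℕ).Definable L {v : α × Fin n → ℕ | P (fun i j => v (i, j))}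

namespace Dfn

variable {α β γ : Type}

theorem congr {P Q : (α → Fin n → ℕ) → Prop} (h : Dfn L P) (e : ∀ w, P w ↔ Q w) : Dfn L Q := by
  have : P = Q := funext fun w => propext (e w)
  rwa [← this]

theorem and {P Q : (α → Fin n → ℕ) → Prop} (hP : Dfn L P) (hQ : Dfn L Q) :
    Dfn L (fun w => P w ∧ Q w) := Set.Definable.inter hP hQ

theorem or {P Q : (α → Fin n → ℕ) → Prop} (hP : Dfn L P) (hQ : Dfn L Q) :
    Dfn L (fun w => P w ∨ Q w) := Set.Definable.union hP hQ

theorem not {P : (α → Fin n → ℕ) → Prop} (hP : Dfn L P) :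
    Dfn L (fun w => ¬ P w) := Set.Definable.compl hP

theorem imp {P Q : (α → Fin n → ℕ) → Prop} (hP : Dfn L P) (hQ : Dfn L Q) :
    Dfn L (fun w => P w → Q w) :=
  (hP.not.or hQ).congr fun w => by tauto

theorem all_fin {ι : Type} [Finite ι] {P : ι → (α → Fin n → ℕ) → Prop} (hP : ∀ i, Dfn L (P i)) :
    Dfn L (fun w => ∀ i, P i w) := by
  have := Set.definable_iInter_of_finite (A := (∅ : Set ℕ)) (L := L) hP
  unfold Dfn
  convert this using 1
  ext v
  simp

theorem ex_fin {ι : Type} [Finite ι] {P : ι → (α → Fin n → ℕ) → Prop} (hP : ∀ i, Dfn L (P i)) :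
    Dfn L (fun w => ∃ i, P i w) := by
  have := Set.definable_iUnion_of_finite (A := (∅ : Set ℕ)) (L := L) hP
  unfold Dfn
  convert this using 1
  ext v
  simp

theorem const (p : Prop) : Dfn L (fun _ : α → Fin n → ℕ => p) := by
  by_cases hp : p
  · have : Dfn L (fun _ : α → Fin n → ℕ => True) := by
      unfold Dfn
      convert Set.definable_univ (A := (∅ : Set ℕ)) (L := L) (α := α × Fin n) using 1
      ext; simp
    exact this.congr fun _ => by simp [hp]
  · have : Dfn L (fun _ : α → Fin n → ℕ => False) := by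
      unfold Dfn
      convert Set.definable_empty (A := (∅ : Set ℕ)) (L := L) (α := α × Fin n) using 1
      ext; simp
    exact this.congr fun _ => by simp [hp]

theorem relabel (σ : α → β) {P : (α → Fin n → ℕ) → Prop} (hP : Dfn L P) :
    Dfn L (fun w : β → Fin n → ℕ => P (fun i => w (σ i))) :=
  Set.Definable.preimage_comp (Prod.map σ id) hP

theorem ex [Finite α] [Finite γ] {P : (α ⊕ γ → Fin n → ℕ) → Prop} (hP : Dfn L P) :
    Dfn L (fun w : α → Fin n → ℕ => ∃ y : γ → Fin n → ℕ, P (Sum.elim w y)) := by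
  have h := Set.Definable.image_comp (A := (∅ : Set ℕ)) (L := L) hP
    (Prod.map (Sum.inl : α → α ⊕ γ) (id : Fin n → Fin n))
  unfold Dfn
  convert h using 1
  ext v
  simp only [Set.mem_image, Set.mem_ofPred_eq]
  constructor
  · rintro ⟨y, hy⟩
    refine ⟨fun p => Sum.elim (fun i j => v (i, j)) y p.1 p.2, ?_, ?_⟩
    · exact hy
    · funext p; rfl
  · rintro ⟨g, hg, rfl⟩
    refine ⟨fun c j => g (Sum.inr c, j), ?_⟩
    convert hg using 1
    funext i j
    cases i <;> rfl

theorem all [Finite α] [Finite γ] {P : (α ⊕ γ → Fin n → ℕ) → Prop} (hP : Dfn L P) :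
    Dfn L (fun w : α → Fin n → ℕ => ∀ y : γ → Fin n → ℕ, P (Sum.elim w y)) :=
  (hP.not.ex.not).congr fun w => by push Not; rfl

/-- Version of `ex` for a single tuple. -/
theorem ex1 [Finite α] {P : (Option α → Fin n → ℕ) → Prop} (hP : Dfn L P) :
    Dfn L (fun w : α → Fin n → ℕ => ∃ a : Fin n → ℕ, P (fun o => o.elim a w)) := by
  have h := (hP.relabel (fun o : Option α => (o.elim (Sum.inr ()) Sum.inl : α ⊕ Unit))).ex
  refine h.congr fun w => ?_
  constructor
  · rintro ⟨y, hy⟩
    refine ⟨y (), ?_⟩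
    convert hy using 2 with o
    cases o <;> rfl
  · rintro ⟨a, ha⟩
    refine ⟨fun _ => a, ?_⟩
    convert ha using 2 with o
    cases o <;> rfl

theorem all1 [Finite α] {P : (Option α → Fin n → ℕ) → Prop} (hP : Dfn L P) :
    Dfn L (fun w : α → Fin n → ℕ => ∀ a : Fin n → ℕ, P (fun o => o.elim a w)) :=
  (hP.not.ex1.not).congr fun w => by push Not; rfl

end Dfn

/-- The key ordering tuples in order type omega: first the maximum, then lexicographically. -/
def key {n : ℕ} (a : Fin n → ℕ) : ℕ ×ₗ Lex (Fin n → ℕ) := toLex (Finset.univ.sup a, toLex a)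

theorem key_injective {n : ℕ} : Function.Injective (key (n := n)) := by
  intro a b h
  have := congrArg (fun x => (ofLex x).2) h
  simpa [key] using this

theorem key_lt_iff {n : ℕ} (a b : Fin n → ℕ) : key a < key b ↔
    (Finset.univ.sup a < Finset.univ.sup b ∨
      (Finset.univ.sup a = Finset.univ.sup b ∧ toLex a < toLex b)) := by
  unfold key
  rw [Prod.Lex.toLex_lt_toLex]

theorem sup_lt_sup_iff {n : ℕ} (a b : Fin n → ℕ) :
    Finset.univ.sup a < Finset.univ.sup b ↔ ∃ j, ∀ i, a i < b j := by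
  constructor
  · intro h
    have hne : (Finset.univ : Finset (Fin n)).Nonempty := by
      by_contra hne
      rw [Finset.not_nonempty_iff_eq_empty] at hne
      rw [hne] at h
      simp at h
    obtain ⟨j, -, hj⟩ := Finset.exists_mem_eq_sup _ hne b
    refine ⟨j, fun i => ?_⟩
    rw [← hj]
    exact lt_of_le_of_lt (Finset.le_sup (Finset.mem_univ i)) h
  · rintro ⟨j, hj⟩
    have h0 : (⊥ : ℕ) < b j := by
      have := hj j
      exact lt_of_le_of_lt (Nat.zero_le _) this
    exact lt_of_lt_of_le ((Finset.sup_lt_iff h0).2 fun i _ => hj i)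
      (Finset.le_sup (Finset.mem_univ j))

theorem finite_key_le {n : ℕ} (b : Fin n → ℕ) : {a : Fin n → ℕ | key a ≤ key b}.Finite := by
  have : {a : Fin n → ℕ | key a ≤ key b} ⊆
      Set.pi Set.univ (fun _ : Fin n => Set.Iic (Finset.univ.sup b)) := by
    intro a ha i _
    have h1 : a i ≤ Finset.univ.sup a := Finset.le_sup (Finset.mem_univ i)
    have h2 : Finset.univ.sup a ≤ Finset.univ.sup b := by
      rcases lt_or_eq_of_le (show key a ≤ key b from ha) with h | h
      · rcases (key_lt_iff a b).1 h with h | h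
        · exact h.le
        · exact h.1.le
      · rw [key_injective h]
    exact h1.trans h2
  exact (Set.Finite.pi' (fun _ => Set.finite_Iic _)).subset (by
    intro a ha i
    exact this ha i (Set.mem_univ _))

section

variable {α : Type}

theorem dfn_lt (hlt : (∅ : Set ℕ).Definable L {v : Fin 2 → ℕ | v 0 < v 1})
    (i j : α) (p q : Fin n) : Dfn L (fun w : α → Fin n → ℕ => w i p < w j q) := by
  have := Set.Definable.preimage_comp (![(i, p), (j, q)] : Fin 2 → α × Fin n) hlt
  unfold Dfn
  convert this using 1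
  rfl

theorem dfn_eq (hlt : (∅ : Set ℕ).Definable L {v : Fin 2 → ℕ | v 0 < v 1})
    (i j : α) (p q : Fin n) : Dfn L (fun w : α → Fin n → ℕ => w i p = w j q) :=
  ((dfn_lt hlt i j p q).not.and (dfn_lt hlt j i q p).not).congr fun w => by omega

theorem dfn_key (hlt : (∅ : Set ℕ).Definable L {v : Fin 2 → ℕ | v 0 < v 1})
    (i j : α) : Dfn L (fun w : α → Fin n → ℕ => key (w i) < key (w j)) := by
  have h1 : ∀ i j : α, Dfn L (fun w : α → Fin n → ℕ => ∃ q, ∀ p, w i p < w j q) := fun i j =>
    Dfn.ex_fin fun q => Dfn.all_fin fun p => dfn_lt hlt i j p q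
  have h2 : Dfn L (fun w : α → Fin n → ℕ => ∃ p, (∀ q, q < p → w i q = w j q) ∧ w i p < w j p) :=
    Dfn.ex_fin fun p => (Dfn.all_fin fun q =>
      (Dfn.const (q < p)).imp (dfn_eq hlt i j q q)).and (dfn_lt hlt i j p p)
  refine ((h1 i j).or (((h1 i j).not.and (h1 j i).not).and h2)).congr fun w => ?_
  rw [key_lt_iff, sup_lt_sup_iff]
  have e : (Finset.univ.sup (w i) = Finset.univ.sup (w j)) ↔
      (¬ (∃ q, ∀ p, w i p < w j q) ∧ ¬ (∃ q, ∀ p, w j p < w i q)) := by
    rw [← sup_lt_sup_iff, ← sup_lt_sup_iff]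
    omega
  rw [e]
  rfl

end

end Pool.Agent.H671S
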