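import Mathlib
import Pool.Agent.H671S.Dfn

set_option autoImplicit false

/-! Relations on an interpreted field, and the main theorem. -/

namespace Pool.Agent.H671S

open FirstOrder FirstOrder.Language Set

/-- The data of an interpretation of a set `K` in a structure on the natural numbers. -/
structure Interp (L : FirstOrder.Language.{0, 0}) [L.Structure ℕ] (n : ℕ) (K : Type) where
  D : (Fin n → ℕ) → Prop
  f : (Fin n → ℕ) → K
  surj : ∀ x, ∃ a, D a ∧ f a = x
  defD : ∀ {α : Type} (i : α), Dfn L (fun w : α → Fin n → ℕ => D (w i))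
  defE : ∀ {α : Type} (i j : α), Dfn L (fun w : α → Fin n → ℕ =>
    D (w i) ∧ D (w j) ∧ f (w i) = f (w j))

namespace Interp

variable {L : FirstOrder.Language.{0, 0}} [L.Structure ℕ] {n : ℕ} {K : Type}
variable (I : Interp L n K)

/-- A relation on `K` is good if its pullback to tuples is definable. -/
def Good {α : Type} (R : (α → K) → Prop) : Prop :=
  Dfn L (fun w : α → Fin n → ℕ => (∀ i, I.D (w i)) ∧ R (fun i => I.f (w i)))

variable {I} {α β γ : Type}

theorem allD [Finite α] : Dfn L (fun w : α → Fin n → ℕ => ∀ i, I.D (w i)) :=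
  Dfn.all_fin fun i => I.defD i

namespace Good

theorem congr {P Q : (α → K) → Prop} (h : I.Good P) (e : ∀ x, P x ↔ Q x) : I.Good Q := by
  have : P = Q := funext fun w => propext (e w)
  rwa [← this]

theorem and {P Q : (α → K) → Prop} (hP : I.Good P) (hQ : I.Good Q) :
    I.Good (fun x => P x ∧ Q x) :=
  (Dfn.and hP hQ).congr fun w => by tauto

theorem not [Finite α] {P : (α → K) → Prop} (hP : I.Good P) :
    I.Good (fun x => ¬ P x) :=
  (Dfn.and allD (Dfn.not hP)).congr fun w => by tauto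

theorem or [Finite α] {P Q : (α → K) → Prop} (hP : I.Good P) (hQ : I.Good Q) :
    I.Good (fun x => P x ∨ Q x) :=
  (Dfn.or hP hQ).congr fun w => by tauto

theorem imp [Finite α] {P Q : (α → K) → Prop} (hP : I.Good P) (hQ : I.Good Q) :
    I.Good (fun x => P x → Q x) :=
  (hP.not.or hQ).congr fun x => by tauto

theorem relabel [Finite β] (σ : α → β) {P : (α → K) → Prop} (hP : I.Good P) :
    I.Good (fun x : β → K => P (fun i => x (σ i))) :=
  (Dfn.and allD (Dfn.relabel σ hP)).congr fun w =>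
    ⟨fun h => ⟨h.1, h.2.2⟩, fun h => ⟨h.1, fun i => h.1 _, h.2⟩⟩

theorem ex [Finite α] [Finite γ] {P : (α ⊕ γ → K) → Prop} (hP : I.Good P) :
    I.Good (fun x : α → K => ∃ y : γ → K, P (Sum.elim x y)) := by
  refine (Dfn.ex hP).congr fun w => ?_
  constructor
  · rintro ⟨y, hD, hy⟩
    refine ⟨fun i => hD (Sum.inl i), fun c => I.f (y c), ?_⟩
    convert hy using 2 with i
    cases i <;> rfl
  · rintro ⟨hD, y, hy⟩
    choose r hr1 hr2 using I.surj
    refine ⟨fun c => r (y c), ?_, ?_⟩
    · rintro (i | c)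
      · exact hD i
      · exact hr1 _
    · convert hy using 2 with i
      cases i with
      | inl i => rfl
      | inr c => exact hr2 _

theorem all [Finite α] [Finite γ] {P : (α ⊕ γ → K) → Prop} (hP : I.Good P) :
    I.Good (fun x : α → K => ∀ y : γ → K, P (Sum.elim x y)) :=
  (hP.not.ex.not).congr fun w => by push Not; rfl

theorem ex1 [Finite α] {P : (Option α → K) → Prop} (hP : I.Good P) :
    I.Good (fun x : α → K => ∃ a : K, P (fun o => o.elim a x)) := by
  have h := (hP.relabel (fun o : Option α => (o.elim (Sum.inr ()) Sum.inl : α ⊕ Unit))).ex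
  refine h.congr fun w => ?_
  constructor
  · rintro ⟨y, hy⟩
    refine ⟨y (), ?_⟩
    convert hy using 2 with o
    cases o <;> rfl
  · rintro ⟨a, ha⟩
    refine ⟨fun _ => a, ?_⟩
    convert ha using 2 with o
    cases o <;> rfl

theorem all1 [Finite α] {P : (Option α → K) → Prop} (hP : I.Good P) :
    I.Good (fun x : α → K => ∀ a : K, P (fun o => o.elim a x)) :=
  (hP.not.ex1.not).congr fun w => by push Not; rfl

end Good

/-- The least representative. -/
theorem exists_rep (I : Interp L n K) (x : K) :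
    ∃ a, I.D a ∧ I.f a = x ∧ ∀ b, I.D b → I.f b = x → key a ≤ key b := by
  obtain ⟨a₀, h0, hx⟩ := I.surj x
  obtain ⟨a, ⟨⟨ha1, ha2⟩, ha3⟩, hmin⟩ := Set.exists_min_image
    ({a | I.D a ∧ I.f a = x} ∩ {a | key a ≤ key a₀}) key
    ((finite_key_le a₀).subset Set.inter_subset_right) ⟨a₀, ⟨h0, hx⟩, le_refl (key a₀)⟩
  refine ⟨a, ha1, ha2, fun b hb1 hb2 => ?_⟩
  by_cases hb : key b ≤ key a₀
  · exact hmin b ⟨⟨hb1, hb2⟩, hb⟩
  · exact ha3.trans (not_le.1 hb).le

/-- The chosen least representative. -/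
noncomputable def rep (I : Interp L n K) (x : K) : Fin n → ℕ := (I.exists_rep x).choose

theorem D_rep (x : K) : I.D (I.rep x) := (I.exists_rep x).choose_spec.1
theorem f_rep (x : K) : I.f (I.rep x) = x := (I.exists_rep x).choose_spec.2.1
theorem rep_le (x : K) (b : Fin n → ℕ) (hb : I.D b) (hx : I.f b = x) :
    key (I.rep x) ≤ key b := (I.exists_rep x).choose_spec.2.2 b hb hx

/-- The order of type omega on `K`. -/
noncomputable def ht (I : Interp L n K) (x : K) : ℕ ×ₗ Lex (Fin n → ℕ) := key (I.rep x)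

theorem rep_injective : Function.Injective I.rep := fun x y h => by
  rw [← I.f_rep x, ← I.f_rep y, h]

theorem ht_injective : Function.Injective I.ht := fun _ _ h => rep_injective (key_injective h)

theorem ht_finite (t : K) : {y | I.ht y ≤ I.ht t}.Finite := by
  have := (finite_key_le (I.rep t))
  exact Set.Finite.of_finite_image (f := I.rep)
    (this.subset (by rintro _ ⟨y, hy, rfl⟩; exact hy)) rep_injective.injOn

theorem ht_lt_iff (a b : Fin n → ℕ) (ha : I.D a) (hb : I.D b) :
    I.ht (I.f a) < I.ht (I.f b) ↔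
      ∃ a', (I.D a' ∧ I.D a ∧ I.f a' = I.f a) ∧
        ∀ b', (I.D b' ∧ I.D b ∧ I.f b' = I.f b) → key a' < key b' := by
  constructor
  · intro h
    refine ⟨I.rep (I.f a), ⟨I.D_rep _, ha, I.f_rep _⟩, ?_⟩
    rintro b' ⟨hb1, -, hb2⟩
    exact lt_of_lt_of_le h (I.rep_le _ _ hb1 hb2)
  · rintro ⟨a', ⟨ha1, -, ha2⟩, h⟩
    exact lt_of_le_of_lt (I.rep_le _ _ ha1 ha2) (h _ ⟨I.D_rep _, hb, I.f_rep _⟩)

theorem good_lt (hlt : (∅ : Set ℕ).Definable L {v : Fin 2 → ℕ | v 0 < v 1}) [Finite α] (i j : α) :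
    I.Good (fun x : α → K => I.ht (x i) < I.ht (x j)) := by
  have h1 : Dfn L (fun w : Option (Option α) → Fin n → ℕ =>
      (I.D (w none) ∧ I.D (w (some (some j))) ∧ I.f (w none) = I.f (w (some (some j)))) →
        key (w (some none)) < key (w none)) :=
    (I.defE none (some (some j))).imp (dfn_key hlt _ _)
  have h2 := h1.all1
  have h3 : Dfn L (fun w : Option α → Fin n → ℕ =>
      (I.D (w none) ∧ I.D (w (some i)) ∧ I.f (w none) = I.f (w (some i))) ∧
      ∀ a, (fun w : Option (Option α) → Fin n → ℕ =>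
      (I.D (w none) ∧ I.D (w (some (some j))) ∧ I.f (w none) = I.f (w (some (some j)))) →
        key (w (some none)) < key (w none)) (fun o => o.elim a w)) :=
    (I.defE none (some i)).and h2
  have h4 := allD.and h3.ex1 (P := fun w : α → Fin n → ℕ => ∀ i, I.D (w i))
  refine h4.congr fun w => ?_
  constructor
  · rintro ⟨hD, h⟩
    exact ⟨hD, (I.ht_lt_iff _ _ (hD i) (hD j)).2 h⟩
  · rintro ⟨hD, h⟩
    exact ⟨hD, (I.ht_lt_iff _ _ (hD i) (hD j)).1 h⟩

end Interp

end Pool.Agent.H671S
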