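import Mathlib
import Pool.Agent.H671S.Interp

set_option autoImplicit false

/-! No structure without the independence property on the ordered natural numbers interprets
an infinite field. -/

namespace Pool.Agent.H671S

open FirstOrder FirstOrder.Language Set

namespace Interp

variable {L : FirstOrder.Language.{0, 0}} [L.Structure ℕ] {n : ℕ} {K : Type} [Field K]
variable {I : Interp L n K} {α : Type}

/-- Encoding of tuples of elements of `K`. -/
noncomputable def enc (I : Interp L n K) {p : ℕ} (x : Fin p → K) : Fin (p * n) → ℕ :=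
  fun t => I.rep (x (finProdFinEquiv.symm t).1) (finProdFinEquiv.symm t).2

omit [Field K] in
theorem enc_apply {p : ℕ} (x : Fin p → K) (i : Fin p) (j : Fin n) :
    I.enc x (finProdFinEquiv (i, j)) = I.rep (x i) j := by
  unfold enc
  rw [Equiv.symm_apply_apply]

omit [Field K] in
theorem enc_injective {p : ℕ} : Function.Injective (I.enc (p := p)) := by
  intro x y h
  funext i
  apply I.rep_injective
  funext j
  rw [← enc_apply, ← enc_apply, h]

omit [Field K] in
/-- A good relation has finite VC dimension. -/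
theorem nip_of_good
    (hnip : ∀ (n m : ℕ) (φ : L.Formula (Fin n ⊕ Fin m)), ∃ k : ℕ,
        ∀ A : Finset (Fin n → ℕ), A.card = k →
          ∃ B ⊆ A, ∀ b : Fin m → ℕ,
            ¬ (∀ a ∈ A, (a ∈ B ↔ φ.Realize (Sum.elim a b))))
    {p q : ℕ} {R : (Fin p ⊕ Fin q → K) → Prop} (hR : I.Good R) :
    ∃ k : ℕ, ∀ pts : Fin k → (Fin p → K), Function.Injective pts →
      ∃ S : Finset (Fin k), ∀ c : Fin q → K, ¬ ∀ i, (i ∈ S ↔ R (Sum.elim (pts i) c)) := by
  classical
  let σ : (Fin p ⊕ Fin q) × Fin n → Fin (p * n) ⊕ Fin (q * n) := fun s =>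
    Sum.map (fun i => finProdFinEquiv (i, s.2)) (fun i => finProdFinEquiv (i, s.2)) s.1
  have h1 := Set.Definable.preimage_comp σ hR
  rw [Set.empty_definable_iff] at h1
  obtain ⟨φ, hφ⟩ := h1
  obtain ⟨k, hk⟩ := hnip _ _ φ
  refine ⟨k, fun pts hpts => ?_⟩
  obtain ⟨B, hB, hno⟩ := hk (Finset.univ.image fun i => I.enc (pts i)) (by
    have h0 : Function.Injective (fun i => I.enc (pts i)) := enc_injective.comp hpts
    rw [Finset.card_image_of_injective _ h0, Finset.card_univ, Fintype.card_fin])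
  refine ⟨Finset.univ.filter fun i => I.enc (pts i) ∈ B, fun c hc => ?_⟩
  apply hno (I.enc c)
  intro a ha
  obtain ⟨i, -, rfl⟩ := Finset.mem_image.1 ha
  have h2 := hc i
  simp only [Finset.mem_filter, Finset.mem_univ, true_and] at h2
  rw [h2]
  have h3 : (Sum.elim (I.enc (pts i)) (I.enc c)) ∈ (fun g : Fin (p * n) ⊕ Fin (q * n) → ℕ => g ∘ σ) ⁻¹'
      {v : (Fin p ⊕ Fin q) × Fin n → ℕ | (∀ i, I.D (fun j => v (i, j))) ∧
        R (fun i => I.f (fun j => v (i, j)))} ↔ φ.Realize (Sum.elim (I.enc (pts i)) (I.enc c)) := by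
    rw [hφ]; rfl
  rw [← h3]
  have h4 : ∀ s : Fin p ⊕ Fin q, (fun j => (Sum.elim (I.enc (pts i)) (I.enc c) ∘ σ) (s, j)) =
      I.rep (Sum.elim (pts i) c s) := by
    intro s
    funext j
    cases s with
    | inl s => exact enc_apply _ _ _
    | inr s => exact enc_apply _ _ _
  have h5 : (fun s : Fin p ⊕ Fin q => I.f (fun j => (Sum.elim (I.enc (pts i)) (I.enc c) ∘ σ) (s, j))) =
      Sum.elim (pts i) c := by
    funext s
    rw [h4, f_rep]
  simp only [Set.mem_preimage, Set.mem_ofPred_eq, h5]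
  constructor
  · intro h
    exact ⟨fun s => by rw [h4]; exact D_rep _, h⟩
  · exact fun h => h.2

section
variable (hlt : (∅ : Set ℕ).Definable L {v : Fin 2 → ℕ | v 0 < v 1})
  (hadd : ∀ {α : Type} (i j k : α), Dfn L (fun w : α → Fin n → ℕ =>
    I.D (w i) ∧ I.D (w j) ∧ I.D (w k) ∧ I.f (w i) + I.f (w j) = I.f (w k)))
  (hmul : ∀ {α : Type} (i j k : α), Dfn L (fun w : α → Fin n → ℕ =>
    I.D (w i) ∧ I.D (w j) ∧ I.D (w k) ∧ I.f (w i) * I.f (w j) = I.f (w k)))

include hadd in
theorem good_add [Finite α] (i j k : α) : I.Good (fun x : α → K => x i + x j = x k) :=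
  (allD.and (hadd i j k)).congr fun w => by
    constructor
    · rintro ⟨h, -, -, -, h'⟩; exact ⟨h, h'⟩
    · rintro ⟨h, h'⟩; exact ⟨h, h i, h j, h k, h'⟩

include hmul in
theorem good_mul [Finite α] (i j k : α) : I.Good (fun x : α → K => x i * x j = x k) :=
  (allD.and (hmul i j k)).congr fun w => by
    constructor
    · rintro ⟨h, -, -, -, h'⟩; exact ⟨h, h'⟩
    · rintro ⟨h, h'⟩; exact ⟨h, h i, h j, h k, h'⟩

include hlt hadd in
theorem good_lt_add [Finite α] (i j k : α) :
    I.Good (fun x : α → K => I.ht (x i + x j) < I.ht (x i + x k)) := by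
  have h1 : I.Good (fun x : Option (Option α) → K =>
      (x (some (some i)) + x (some (some j)) = x (some none) ∧
        x (some (some i)) + x (some (some k)) = x none) ∧ I.ht (x (some none)) < I.ht (x none)) :=
    ((good_add hadd _ _ _).and (good_add hadd _ _ _)).and (I.good_lt hlt _ _)
  refine h1.ex1.ex1.congr fun x => ?_
  constructor
  · rintro ⟨a, b, ⟨h1, h2⟩, h3⟩
    simp only [Option.elim] at h1 h2 h3
    rw [h1, h2]; exact h3
  · intro h
    exact ⟨_, _, ⟨rfl, rfl⟩, h⟩

include hlt hadd hmul in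
theorem good_theta : I.Good (fun x : Fin 1 ⊕ Fin 3 → K =>
    I.ht (x (Sum.inr 0) * x (Sum.inl 0) + x (Sum.inr 1)) <
      I.ht (x (Sum.inr 0) * x (Sum.inl 0) + x (Sum.inr 2))) := by
  have h1 : I.Good (fun x : Option (Fin 1 ⊕ Fin 3) → K =>
      (x (some (Sum.inr 0)) * x (some (Sum.inl 0)) = x none) ∧
        I.ht (x none + x (some (Sum.inr 1))) < I.ht (x none + x (some (Sum.inr 2)))) :=
    (good_mul hmul _ _ _).and (good_lt_add hlt hadd _ _ _)
  refine h1.ex1.congr fun x => ?_
  constructor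
  · rintro ⟨a, h1, h2⟩
    simp only [Option.elim] at h1 h2
    rw [h1]; exact h2
  · intro h
    exact ⟨_, rfl, h⟩

include hlt hadd in
theorem good_phi : I.Good (fun x : Fin 3 ⊕ Fin 1 → K =>
    Phi I.ht (x (Sum.inl 0)) (x (Sum.inl 1)) (x (Sum.inl 2)) (x (Sum.inr 0))) := by
  have h1 : I.Good (fun x : Option (Option (Fin 3 ⊕ Fin 1)) → K =>
      I.ht (x none) < I.ht (x (some (some (Sum.inl 1)))) →
        ¬ (I.ht (x (some (some (Sum.inl 0))) + x (some (some (Sum.inr 0)))) <
          I.ht (x (some (some (Sum.inl 0))) + x none)) →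
        I.ht (x (some (some (Sum.inl 0))) + x none) <
          I.ht (x (some (some (Sum.inl 0))) + x (some none))) :=
    (I.good_lt hlt _ _).imp ((good_lt_add hlt hadd _ _ _).not.imp (good_lt_add hlt hadd _ _ _))
  have h2 : I.Good (fun x : Option (Fin 3 ⊕ Fin 1) → K =>
      I.ht (x none) < I.ht (x (some (Sum.inl 2))) ∧
      ¬ (I.ht (x (some (Sum.inl 0)) + x (some (Sum.inr 0))) <
        I.ht (x (some (Sum.inl 0)) + x none)) ∧
      ∀ b, (fun x : Option (Option (Fin 3 ⊕ Fin 1)) → K =>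
        I.ht (x none) < I.ht (x (some (some (Sum.inl 1)))) →
        ¬ (I.ht (x (some (some (Sum.inl 0))) + x (some (some (Sum.inr 0)))) <
          I.ht (x (some (some (Sum.inl 0))) + x none)) →
        I.ht (x (some (some (Sum.inl 0))) + x none) <
          I.ht (x (some (some (Sum.inl 0))) + x (some none))) (fun o => o.elim b x)) :=
    (I.good_lt hlt _ _).and ((good_lt_add hlt hadd _ _ _).not.and h1.all1)
  exact h2.ex1

include hlt hadd hmul in
theorem no_infinite_field [Infinite K]
    (hnip : ∀ (n m : ℕ) (φ : L.Formula (Fin n ⊕ Fin m)), ∃ k : ℕ,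
        ∀ A : Finset (Fin n → ℕ), A.card = k →
          ∃ B ⊆ A, ∀ b : Fin m → ℕ,
            ¬ (∀ a ∈ A, (a ∈ B ↔ φ.Realize (Sum.elim a b)))) : False := by
  classical
  obtain ⟨k, hk⟩ := nip_of_good hnip (good_theta hlt hadd hmul)
  have hF : NoShatter (cmpFam I.ht) k := by
    intro A hA
    let e := A.equivFinOfCardEq hA
    obtain ⟨S, hS⟩ := hk (fun i _ => (e.symm i : K)) (by
      intro i j hij
      have := congrFun hij 0
      exact e.symm.injective (Subtype.ext this))
    refine ⟨A.filter fun x => ∃ h : x ∈ A, e ⟨x, h⟩ ∈ S, Finset.filter_subset _ _, ?_⟩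
    rintro s ⟨a, y, y', -, rfl⟩ hall
    apply hS ![a, y, y']
    intro i
    have h1 := hall (e.symm i) (e.symm i).2
    simp only [Finset.mem_filter, Finset.coe_mem, true_and, Subtype.coe_eta,
      Equiv.apply_symm_apply, exists_true_left, Set.mem_ofPred_eq] at h1
    rw [h1]
    rfl
  obtain ⟨m, hm⟩ := nip_of_good hnip (good_phi hlt hadd)
  obtain ⟨x, t, u, hphi⟩ := core I.ht I.ht_injective I.ht_finite hF m
  obtain ⟨S, hS⟩ := hm (fun i => ![x, t i, t (i + 1)]) (by
    intro i j hij
    have h1 : t i = t j := congrFun hij 1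
    have h2 : t (i + 1) = t (j + 1) := congrFun hij 2
    have h3 := hphi i {i}
    have h4 := hphi j {i}
    rw [h1, h2] at h3
    have h5 : j ∈ ({i} : Finset (Fin m)) := h4.1 (h3.2 (Finset.mem_singleton_self i))
    exact (Finset.mem_singleton.1 h5).symm)
  apply hS ![u S]
  intro i
  exact (hphi i S).symm

end

end Interp

end Pool.Agent.H671S
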