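import Mathlib

/-!
An ultrafilter construction for patterns `x + y`, `2 ^ x * y`.

`H` is the semigroup of pairs `(y, w)` with `(y₁, w₁) * (y₂, w₂) = (y₁ + 2 ^ w₁ * y₂, w₁ + w₂)`.
There are an idempotent `e` of `βℕ` and an idempotent `p` of `βH` such that `e * p = p` and such
that the images of `p` under `(y, w) ↦ w` and under all maps `(y, w) ↦ w + 2 ^ A * y` are `e`.
-/

set_option autoImplicit false

namespace Pool.Agent.H671S.PE

open Filter

attribute [local instance] Ultrafilter.semigroup Ultrafilter.addSemigroup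

/-- pairs `(y, w)` -/
@[ext] structure H where
  y : ℕ
  w : ℕ

instance : Semigroup H where
  mul s t := ⟨s.y + 2 ^ s.w * t.y, s.w + t.w⟩
  mul_assoc a b c := by
    ext
    · show a.y + 2 ^ a.w * b.y + 2 ^ (a.w + b.w) * c.y = a.y + 2 ^ a.w * (b.y + 2 ^ b.w * c.y)
      rw [pow_add]; ring
    · show a.w + b.w + c.w = a.w + (b.w + c.w)
      ring

@[simp] theorem mul_y (s t : H) : (s * t).y = s.y + 2 ^ s.w * t.y := rfl
@[simp] theorem mul_w (s t : H) : (s * t).w = s.w + t.w := rfl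

/-- the shift caused by an active stage in the context `A` -/
def θ (A : ℕ) (s : H) : ℕ := s.w + 2 ^ A * s.y

theorem θ_mul (A : ℕ) (s t : H) : θ A (s * t) = θ A s + θ (A + s.w) t := by
  simp only [θ, mul_y, mul_w, pow_add]; ring

/-- `C` contains a configuration -/
def Rich (C : Set ℕ) (n : ℕ) : Prop :=
  ∃ w y : ℕ, 1 ≤ y ∧ w ∈ C ∧ ∀ A ≤ n, w + 2 ^ A * y ∈ C

theorem Rich.mono {C : Set ℕ} {n m : ℕ} (h : Rich C n) (hm : m ≤ n) : Rich C m := by
  obtain ⟨w, y, h1, h2, h3⟩ := h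
  exact ⟨w, y, h1, h2, fun A hA => h3 A (hA.trans hm)⟩

/-- all members are rich -/
def G : Set (Ultrafilter ℕ) := {q | ∀ (C : Set ℕ) (n : ℕ), ¬ Rich C n → Cᶜ ∈ q}

theorem rich_of_mem {q : Ultrafilter ℕ} (hq : q ∈ G) {C : Set ℕ} (hC : C ∈ q) (n : ℕ) :
    Rich C n := by
  by_contra h
  exact (Ultrafilter.compl_mem_iff_notMem.mp (hq C n h)) hC

theorem G_nonempty : G.Nonempty := by
  classical
  set S : Set (Set ℕ) := {X | ∃ n, ¬ Rich Xᶜ n} with hS
  have hne : (Filter.generate S).NeBot := by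
    rw [Filter.generate_neBot_iff]
    intro t hts htf
    by_contra hemp
    rw [Set.not_nonempty_iff_eq_empty] at hemp
    have hx : ∀ x : ℕ, ∃ X : t, x ∉ (X : Set ℕ) := by
      intro x
      by_contra hcon
      push Not at hcon
      have : x ∈ ⋂₀ t := by
        intro X hX
        exact hcon ⟨X, hX⟩
      rw [hemp] at this
      exact this
    choose col hcol using hx
    have hn : ∀ X : t, ∃ n, ¬ Rich (X : Set ℕ)ᶜ n := fun X => hts X.2
    choose nn hnn using hn
    haveI : Finite t := htf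
    haveI := Fintype.ofFinite t
    obtain ⟨N, hN⟩ : ∃ N, ∀ X : t, nn X ≤ N :=
      ⟨Finset.univ.sup nn, fun X => Finset.le_sup (Finset.mem_univ X)⟩
    obtain ⟨a, ha, b, X, hb⟩ := Combinatorics.exists_mono_homothetic_copy
      (insert 0 ((Finset.range (N + 1)).image fun A => 2 ^ A)) col
    apply hnn X
    refine Rich.mono (n := N) ⟨b, a, ha, ?_, ?_⟩ (hN X)
    · have h1 := hb 0 (Finset.mem_insert_self _ _)
      have h2 := hcol (a • 0 + b)
      rw [h1] at h2
      simpa using h2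
    · intro A hA
      have h1 := hb (2 ^ A) (Finset.mem_insert_of_mem (Finset.mem_image.mpr
        ⟨A, Finset.mem_range.mpr (by omega), rfl⟩))
      have h2 := hcol (a • 2 ^ A + b)
      rw [h1] at h2
      have h3 : b + 2 ^ A * a = a • 2 ^ A + b := by
        rw [smul_eq_mul]; ring
      rw [h3]
      exact h2
  refine ⟨Ultrafilter.of (Filter.generate S), ?_⟩
  intro C n h
  apply Ultrafilter.of_le
  apply Filter.mem_generate_of_mem
  exact ⟨n, by rwa [compl_compl]⟩

theorem G_closed : IsClosed G := by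
  have : G = ⋂ (C : Set ℕ) (n : ℕ) (_ : ¬ Rich C n), {q : Ultrafilter ℕ | Cᶜ ∈ q} := by
    ext q
    simp [G]
  rw [this]
  exact isClosed_iInter fun C => isClosed_iInter fun n => isClosed_iInter fun _ =>
    ultrafilter_isClosed_basic _

theorem G_add {q r : Ultrafilter ℕ} (hq : q ∈ G) : q + r ∈ G := by
  intro C n hC
  by_contra hcon
  rw [Ultrafilter.compl_mem_iff_notMem, not_not] at hcon
  have h1 : ∀ᶠ w in (q : Filter ℕ), ∀ᶠ u in (r : Filter ℕ), w + u ∈ C := hcon
  obtain ⟨w, y, hy, hw, hA⟩ := rich_of_mem hq h1 n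
  have h2 : ∀ᶠ u in (r : Filter ℕ), ∀ A ∈ Finset.range (n + 1), (w + 2 ^ A * y) + u ∈ C := by
    rw [Filter.eventually_all_finset]
    intro A hAn
    exact hA A (by rw [Finset.mem_range] at hAn; omega)
  obtain ⟨u, hu1, hu2⟩ := (h2.and hw).exists
  apply hC
  refine ⟨w + u, y, hy, hu2, fun A hAn => ?_⟩
  have := hu1 A (Finset.mem_range.mpr (by omega))
  rwa [show w + u + 2 ^ A * y = w + 2 ^ A * y + u by ring]

theorem exists_e : ∃ e : Ultrafilter ℕ, e ∈ G ∧ e + e = e := by
  obtain ⟨e, he, h⟩ := exists_idempotent_in_compact_add_subsemigroup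
    (M := Ultrafilter ℕ) Ultrafilter.continuous_add_left G G_nonempty G_closed.isCompact
    (fun x hx y _ => G_add hx)
  exact ⟨e, he, h⟩

/-- the ultrafilters on `H` whose images are all `e` -/
def Q (e : Ultrafilter ℕ) : Set (Ultrafilter H) :=
  {p | (∀ᶠ s in (p : Filter H), 1 ≤ s.y) ∧ (∀ C ∈ e, ∀ᶠ s in (p : Filter H), s.w ∈ C) ∧
    ∀ A, ∀ C ∈ e, ∀ᶠ s in (p : Filter H), θ A s ∈ C}

theorem Q_closed (e : Ultrafilter ℕ) : IsClosed (Q e) := by
  have : Q e = {p : Ultrafilter H | {s : H | 1 ≤ s.y} ∈ p} ∩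
      ((⋂ (C : Set ℕ) (_ : C ∈ e), {p : Ultrafilter H | {s : H | s.w ∈ C} ∈ p}) ∩
      ⋂ (A : ℕ) (C : Set ℕ) (_ : C ∈ e), {p : Ultrafilter H | {s : H | θ A s ∈ C} ∈ p}) := by
    ext p
    simp only [Q, Set.mem_inter_iff, Set.mem_iInter, Set.mem_setOf_eq]
    rfl
  rw [this]
  refine (ultrafilter_isClosed_basic _).inter (IsClosed.inter ?_ ?_)
  · exact isClosed_iInter fun C => isClosed_iInter fun _ => ultrafilter_isClosed_basic _
  · exact isClosed_iInter fun A => isClosed_iInter fun C => isClosed_iInter fun _ =>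
      ultrafilter_isClosed_basic _

theorem Q_nonempty {e : Ultrafilter ℕ} (he : e ∈ G) : (Q e).Nonempty := by
  let F : Filter H :=
    { sets := {X | ∃ C ∈ e, ∃ n : ℕ, ∀ s : H, 1 ≤ s.y → s.w ∈ C → (∀ A ≤ n, θ A s ∈ C) → s ∈ X}
      univ_sets := ⟨Set.univ, Filter.univ_mem, 0, fun s _ _ _ => Set.mem_univ s⟩
      sets_of_superset := by
        rintro X Y ⟨C, hC, n, h⟩ hXY
        exact ⟨C, hC, n, fun s h1 h2 h3 => hXY (h s h1 h2 h3)⟩
      inter_sets := by
        rintro X Y ⟨C, hC, n, h⟩ ⟨D, hD, m, h'⟩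
        refine ⟨C ∩ D, Filter.inter_mem hC hD, max n m, fun s h1 h2 h3 => ⟨?_, ?_⟩⟩
        · exact h s h1 h2.1 fun A hA => (h3 A (hA.trans (le_max_left _ _))).1
        · exact h' s h1 h2.2 fun A hA => (h3 A (hA.trans (le_max_right _ _))).2 }
  have hF : F.NeBot := by
    rw [← Filter.empty_mem_iff_bot.not.trans Filter.neBot_iff.symm]
    rintro ⟨C, hC, n, h⟩
    obtain ⟨w, y, h1, h2, h3⟩ := rich_of_mem he hC n
    exact h ⟨y, w⟩ h1 h2 h3
  refine ⟨Ultrafilter.of F, ?_, ?_, ?_⟩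
  · apply Ultrafilter.of_le
    exact ⟨Set.univ, Filter.univ_mem, 0, fun s h _ _ => h⟩
  · intro C hC
    apply Ultrafilter.of_le
    exact ⟨C, hC, 0, fun s _ h _ => h⟩
  · intro A C hC
    apply Ultrafilter.of_le
    exact ⟨C, hC, A, fun s _ _ h => h A le_rfl⟩

/-- `e` as an ultrafilter on `H` -/
def emb (e : Ultrafilter ℕ) : Ultrafilter H := e.map fun u => ⟨0, u⟩

theorem ev_emb (e : Ultrafilter ℕ) (P : H → Prop) :
    (∀ᶠ s in (emb e : Filter H), P s) ↔ ∀ᶠ u in (e : Filter ℕ), P ⟨0, u⟩ := by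
  simp [emb]

theorem ev_add {e : Ultrafilter ℕ} (h : e + e = e) {P : ℕ → Prop}
    (hP : ∀ᶠ u in (e : Filter ℕ), P u) : ∀ᶠ u in (e : Filter ℕ), ∀ᶠ v in (e : Filter ℕ), P (u + v) := by
  rw [← Ultrafilter.eventually_add, h]
  exact hP

theorem Q_mul {e : Ultrafilter ℕ} (h : e + e = e) {p q : Ultrafilter H} (hp : p ∈ Q e)
    (hq : q ∈ Q e) : p * q ∈ Q e := by
  refine ⟨?_, ?_, ?_⟩
  · rw [Ultrafilter.eventually_mul]
    filter_upwards [hp.1] with s hs
    filter_upwards with t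
    rw [mul_y]
    omega
  · intro C hC
    rw [Ultrafilter.eventually_mul]
    have h1 := ev_add h (P := fun u => u ∈ C) hC
    filter_upwards [hp.2.1 _ h1] with s hs
    filter_upwards [hq.2.1 _ hs] with t ht
    exact ht
  · intro A C hC
    rw [Ultrafilter.eventually_mul]
    have h1 := ev_add h (P := fun u => u ∈ C) hC
    filter_upwards [hp.2.2 A _ h1] with s hs
    filter_upwards [hq.2.2 (A + s.w) _ hs] with t ht
    rw [θ_mul]
    exact ht

theorem Q_emb_mul {e : Ultrafilter ℕ} (h : e + e = e) {q : Ultrafilter H}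
    (hq : q ∈ Q e) : emb e * q ∈ Q e := by
  refine ⟨?_, ?_, ?_⟩
  · rw [Ultrafilter.eventually_mul, ev_emb]
    filter_upwards with u
    filter_upwards [hq.1] with t ht
    rw [mul_y]
    have : 0 < 2 ^ u * t.y := Nat.mul_pos (by positivity) ht
    show 1 ≤ 0 + 2 ^ u * t.y
    omega
  · intro C hC
    rw [Ultrafilter.eventually_mul, ev_emb]
    have h1 := ev_add h (P := fun u => u ∈ C) hC
    filter_upwards [h1] with u hu
    filter_upwards [hq.2.1 _ hu] with t ht
    exact ht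
  · intro A C hC
    rw [Ultrafilter.eventually_mul, ev_emb]
    have h1 := ev_add h (P := fun u => u ∈ C) hC
    filter_upwards [h1] with u hu
    filter_upwards [hq.2.2 (A + u) _ hu] with t ht
    rw [θ_mul]
    simpa [θ] using ht

theorem Q_mul_emb {e : Ultrafilter ℕ} (h : e + e = e) {p : Ultrafilter H} (hp : p ∈ Q e) :
    p * emb e ∈ Q e := by
  refine ⟨?_, ?_, ?_⟩
  · rw [Ultrafilter.eventually_mul]
    filter_upwards [hp.1] with s hs
    rw [ev_emb]
    filter_upwards with u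
    simpa using hs
  · intro C hC
    rw [Ultrafilter.eventually_mul]
    have h1 := ev_add h (P := fun u => u ∈ C) hC
    filter_upwards [hp.2.1 _ h1] with s hs
    rw [ev_emb]
    filter_upwards [hs] with u hu
    exact hu
  · intro A C hC
    rw [Ultrafilter.eventually_mul]
    have h1 := ev_add h (P := fun u => u ∈ C) hC
    filter_upwards [hp.2.2 A _ h1] with s hs
    rw [ev_emb]
    filter_upwards [hs] with u hu
    rw [θ_mul]
    simpa [θ] using hu

theorem emb_idem {e : Ultrafilter ℕ} (h : e + e = e) : emb e * emb e = emb e := by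
  apply Ultrafilter.coe_inj.mp
  apply Filter.ext'
  intro P
  rw [Ultrafilter.eventually_mul, ev_emb, ev_emb]
  have h2 : (∀ᶠ u in (e : Filter ℕ), P ⟨0, u⟩) ↔
      ∀ᶠ u in (e : Filter ℕ), ∀ᶠ v in (e : Filter ℕ), P ⟨0, u + v⟩ := by
    conv_lhs => rw [← h]
    exact Ultrafilter.eventually_add e e fun u => P ⟨0, u⟩
  rw [h2]
  apply Filter.eventually_congr
  filter_upwards with u
  rw [ev_emb]
  apply Filter.eventually_congr
  filter_upwards with v
  have : (⟨0, u⟩ : H) * ⟨0, v⟩ = ⟨0, u + v⟩ := by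
    ext
    · simp
    · simp
  rw [this]

/-- the ultrafilter `p` -/
theorem exists_p {e : Ultrafilter ℕ} (he : e ∈ G) (h : e + e = e) :
    ∃ p ∈ Q e, p * p = p ∧ emb e * p = p := by
  obtain ⟨p₀, hp₀, hid⟩ := exists_idempotent_in_compact_subsemigroup
    (M := Ultrafilter H) Ultrafilter.continuous_mul_left ((fun q => q * emb e) '' Q e)
    ((Q_nonempty he).image _)
    ((Q_closed e).isCompact.image (Ultrafilter.continuous_mul_left (emb e)))
    (by
      rintro _ ⟨q, hq, rfl⟩ _ ⟨r, hr, rfl⟩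
      refine ⟨q * (emb e * r), Q_mul h hq (Q_emb_mul h hr), ?_⟩
      simp only [mul_assoc])
  obtain ⟨q, hq, rfl⟩ := hp₀
  simp only at hid
  have hE := emb_idem h
  have hqe : q * emb e * emb e = q * emb e := by rw [mul_assoc, hE]
  refine ⟨emb e * (q * emb e), Q_emb_mul h (Q_mul_emb h hq), ?_, ?_⟩
  · calc emb e * (q * emb e) * (emb e * (q * emb e))
        = emb e * ((q * emb e * emb e) * (q * emb e)) := by simp only [mul_assoc]
      _ = emb e * ((q * emb e) * (q * emb e)) := by rw [hqe]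
      _ = emb e * (q * emb e) := by rw [hid]
  · rw [← mul_assoc, hE]

/-- the members of `e ∈ G` are unbounded -/
theorem e_gt {e : Ultrafilter ℕ} (he : e ∈ G) (M : ℕ) : ∀ᶠ u in (e : Filter ℕ), M < u := by
  have h := he {u | u ≤ M} M (by
    rintro ⟨w, y, hy, hw, hA⟩
    have h1 := hA M le_rfl
    have h2 : M < 2 ^ M := Nat.lt_two_pow_self
    have h3 : 2 ^ M * 1 ≤ 2 ^ M * y := Nat.mul_le_mul_left _ hy
    simp only [Set.mem_setOf_eq] at h1
    omega)
  filter_upwards [h] with u hu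
  simpa using hu

end Pool.Agent.H671S.PE
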