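import Pool.Agent.H671S.PE

/-!
For every finite colouring of `ℕ` there is a strictly increasing sequence `b` such that all
`b n + b m` and `2 ^ b n * b m`, `n < m`, have one colour.
-/

set_option autoImplicit false

namespace Pool.Agent.H671S.PE

open Filter

attribute [local instance] Ultrafilter.semigroup Ultrafilter.addSemigroup

/-- `x + 2 ^ W * y` is in `C` for `p`-most `(y, w)` -/
def Good (p : Ultrafilter H) (C : Set ℕ) (x W : ℕ) : Prop :=
  ∀ᶠ s in (p : Filter H), x + 2 ^ W * s.y ∈ C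

theorem Good.idle {e : Ultrafilter ℕ} {p : Ultrafilter H} {C : Set ℕ} (hep : emb e * p = p)
    {x W : ℕ} (h : Good p C x W) : ∀ᶠ u in (e : Filter ℕ), Good p C x (W + u) := by
  unfold Good at h
  rw [← hep, Ultrafilter.eventually_mul, ev_emb] at h
  filter_upwards [h] with u hu
  unfold Good
  filter_upwards [hu] with s hs
  simp only [mul_y, zero_add] at hs
  rwa [pow_add, mul_assoc]

theorem Good.emit {p : Ultrafilter H} {C : Set ℕ} (hpp : p * p = p)
    {x W : ℕ} (h : Good p C x W) :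
    ∀ᶠ s in (p : Filter H), Good p C (x + 2 ^ W * s.y) (W + s.w) := by
  unfold Good at h
  rw [← hpp, Ultrafilter.eventually_mul] at h
  filter_upwards [h] with u hu
  unfold Good
  filter_upwards [hu] with s hs
  simp only [mul_y] at hs
  rwa [pow_add, mul_assoc, add_assoc, ← mul_add]

/-- states of the construction -/
structure St (p : Ultrafilter H) (C : Set ℕ) where
  W : ℕ
  B : Finset ℕ
  g0 : Good p C 0 W
  g1 : ∀ b ∈ B, Good p C b W
  g2 : ∀ b ∈ B, Good p C 0 (W + b)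
  lt : ∀ b ∈ B, b < 2 ^ W

theorem St.step {e : Ultrafilter ℕ} (he : e ∈ G) {p : Ultrafilter H} (hp : p ∈ Q e)
    (hpp : p * p = p) (hep : emb e * p = p) {C : Set ℕ} (S : St p C) :
    ∃ (S' : St p C) (b : ℕ), S'.B = insert b S.B ∧ (∀ b' ∈ S.B, b' < b) ∧
      (∀ b' ∈ S.B, b' + b ∈ C) ∧ ∀ b' ∈ S.B, 2 ^ b' * b ∈ C := by
  classical
  have k1 : ∀ᶠ s in (p : Filter H), ∀ b ∈ S.B, b + 2 ^ S.W * s.y ∈ C := by
    rw [Filter.eventually_all_finset]; exact S.g1
  have k2 : ∀ᶠ s in (p : Filter H), ∀ b ∈ S.B, 0 + 2 ^ (S.W + b) * s.y ∈ C := by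
    rw [Filter.eventually_all_finset]; exact S.g2
  have k3 : ∀ᶠ s in (p : Filter H), Good p C 0 (S.W + s.w) :=
    hp.2.1 _ (S.g0.idle hep)
  have k4 : ∀ᶠ s in (p : Filter H), ∀ b ∈ S.B, Good p C b (S.W + s.w) := by
    rw [Filter.eventually_all_finset]
    intro b hb
    exact hp.2.1 _ ((S.g1 b hb).idle hep)
  have k5 : ∀ᶠ s in (p : Filter H), ∀ b ∈ S.B, Good p C 0 (S.W + b + s.w) := by
    rw [Filter.eventually_all_finset]
    intro b hb
    exact hp.2.1 _ ((S.g2 b hb).idle hep)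
  have k6 := S.g0.emit hpp
  have k7 : ∀ᶠ s in (p : Filter H), Good p C 0 (S.W + θ S.W s) :=
    hp.2.2 S.W _ (S.g0.idle hep)
  obtain ⟨s, h1, h2, h3, h4, h5, h6, h7, h8⟩ :=
    (k1.and (k2.and (k3.and (k4.and (k5.and (k6.and (k7.and hp.1))))))).exists
  have j1 := h3.idle hep
  have j2 : ∀ᶠ u in (e : Filter ℕ), ∀ b ∈ S.B, Good p C b (S.W + s.w + u) := by
    rw [Filter.eventually_all_finset]
    intro b hb
    exact (h4 b hb).idle hep
  have j3 : ∀ᶠ u in (e : Filter ℕ), ∀ b ∈ S.B, Good p C 0 (S.W + b + s.w + u) := by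
    rw [Filter.eventually_all_finset]
    intro b hb
    exact (h5 b hb).idle hep
  have j4 := h6.idle hep
  have j5 := h7.idle hep
  obtain ⟨u, i1, i2, i3, i4, i5, i6⟩ :=
    (j1.and (j2.and (j3.and (j4.and (j5.and (e_gt he (2 ^ S.W * s.y))))))).exists
  have hlt : 2 ^ S.W * s.y < 2 ^ (S.W + s.w + u) := by
    calc 2 ^ S.W * s.y < u := i6
      _ < 2 ^ u := Nat.lt_two_pow_self
      _ ≤ 2 ^ (S.W + s.w + u) := Nat.pow_le_pow_right (by norm_num) (by omega)
  refine ⟨⟨S.W + s.w + u, insert (2 ^ S.W * s.y) S.B, i1, ?_, ?_, ?_⟩, 2 ^ S.W * s.y, rfl,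
    ?_, ?_, ?_⟩
  · intro b hb
    rcases Finset.mem_insert.mp hb with rfl | hb
    · simpa using i4
    · exact i2 b hb
  · intro b hb
    rcases Finset.mem_insert.mp hb with rfl | hb
    · have : S.W + s.w + u + 2 ^ S.W * s.y = S.W + θ S.W s + u := by
        simp only [θ]; ring
      rw [this]
      exact i5
    · have : S.W + s.w + u + b = S.W + b + s.w + u := by ring
      rw [this]
      exact i3 b hb
  · intro b hb
    rcases Finset.mem_insert.mp hb with rfl | hb
    · exact hlt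
    · calc b < 2 ^ S.W := S.lt b hb
        _ ≤ 2 ^ (S.W + s.w + u) := Nat.pow_le_pow_right (by norm_num) (by omega)
  · intro b hb
    calc b < 2 ^ S.W := S.lt b hb
      _ = 2 ^ S.W * 1 := (mul_one _).symm
      _ ≤ 2 ^ S.W * s.y := Nat.mul_le_mul_left _ h8
  · exact h1
  · intro b hb
    have := h2 b hb
    rwa [zero_add, pow_add, mul_comm (2 ^ S.W) (2 ^ b), mul_assoc] at this

/-- Infinite monochromatic `b n + b m`, `2 ^ b n * b m`. -/
theorem exists_seq {κ : Type} [Finite κ] (χ : ℕ → κ) :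
    ∃ (b : ℕ → ℕ) (i : κ), StrictMono b ∧
      ∀ n m, n < m → χ (b n + b m) = i ∧ χ (2 ^ b n * b m) = i := by
  classical
  obtain ⟨e, he, hee⟩ := exists_e
  obtain ⟨p, hp, hpp, hep⟩ := exists_p he hee
  obtain ⟨i, hi⟩ : ∃ i, ∀ᶠ s in (p : Filter H), χ s.y = i := by
    by_contra hcon
    have h1 : ∀ i, ∀ᶠ s in (p : Filter H), ¬ χ s.y = i := fun i =>
      Ultrafilter.eventually_not.mpr (fun h => hcon ⟨i, h⟩)
    have h2 : ∀ᶠ s in (p : Filter H), ∀ i, ¬ χ s.y = i := Filter.eventually_all.mpr h1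
    obtain ⟨s, hs⟩ := h2.exists
    exact hs _ rfl
  set C : Set ℕ := {b | χ b = i} with hC
  have h0 : Good p C 0 0 := by
    unfold Good
    filter_upwards [hi] with s hs
    simpa [hC] using hs
  have step := fun S : St p C => St.step he hp hpp hep S
  choose nxt bb hB hlt hs1 hs2 using step
  let S0 : St p C := ⟨0, ∅, h0, by simp, by simp, by simp⟩
  let st : ℕ → St p C := fun n => Nat.rec S0 (fun _ S => nxt S) n
  have hst : ∀ n, st (n + 1) = nxt (st n) := fun n => rfl
  have hmem : ∀ n m, n < m → bb (st n) ∈ (st m).B := by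
    intro n m hnm
    induction m with
    | zero => omega
    | succ m ih =>
      rw [hst, hB]
      rcases Nat.lt_succ_iff_lt_or_eq.mp hnm with h | rfl
      · exact Finset.mem_insert_of_mem (ih h)
      · exact Finset.mem_insert_self _ _
  refine ⟨fun n => bb (st n), i, ?_, ?_⟩
  · exact strictMono_nat_of_lt_succ fun n => hlt _ _ (hmem n (n + 1) (Nat.lt_succ_self n))
  · intro n m hnm
    exact ⟨hs1 _ _ (hmem n m hnm), hs2 _ _ (hmem n m hnm)⟩

end Pool.Agent.H671S.PE
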